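import Mathlib

set_option autoImplicit false

namespace Pool.Agent.Helper948.Nfa

/-- A nondeterministic finite automaton without empty transitions, over the alphabet `σ`, with
state set `Q`, one start state, a set of accepting states and a finite set of transitions. -/
structure TNFA (σ Q : Type) where
  start : Q
  accept : Set Q
  trans : Finset (Q × σ × Q)

/-- `A.Path p w q`: there is a path from `p` to `q` reading the word `w`. -/
inductive TNFA.Path {σ Q : Type} (A : TNFA σ Q) : Q → List σ → Q → Prop
  | nil (p : Q) : TNFA.Path A p [] p
  | cons {p : Q} {a : σ} {q : Q} {w : List σ} {r : Q} :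
      (p, a, q) ∈ A.trans → TNFA.Path A q w r → TNFA.Path A p (a :: w) r

/-- The language recognised by `A`. -/
def TNFA.lang {σ Q : Type} (A : TNFA σ Q) : Language σ :=
  {w | ∃ f ∈ A.accept, A.Path A.start w f}

/-- The (nondeterministic) transition complexity of a language. -/
noncomputable def tc {σ : Type} (L : Language σ) : ℕ :=
  sInf {t | ∃ (Q : Type) (_ : Fintype Q) (A : TNFA σ Q), A.lang = L ∧ A.trans.card = t}

/-- The inverse image of `L` under the morphism of free monoids determined by `h`. -/
def inverseImage {Γ σ : Type} (h : Γ → List σ) (L : Language σ) : Language Γ :=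
  {w | w.flatMap h ∈ L}

/-- All values `tc (h⁻¹ L)`, over all finite alphabets `Γ` with `k` letters, all finite alphabets
`σ`, all morphisms `h` and all regular languages `L` over `σ` with `tc L = m`. -/
def gValues (k m : ℕ) : Set ℕ :=
  {t | ∃ (Γ σ : Type) (_ : Fintype Γ) (_ : Fintype σ) (h : Γ → List σ) (L : Language σ),
    Fintype.card Γ = k ∧ L.IsRegular ∧ tc L = m ∧ t = tc (inverseImage h L)}

/-- The worst-case transition complexity of inverse morphism. -/
noncomputable def g (k m : ℕ) : ℕ := sSup (gValues k m)

end Pool.Agent.Helper948.Nfa
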