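import Mathlib
import Pool.Agent.Helper948.NfaDefs

set_option autoImplicit false
set_option linter.unusedSectionVars false

namespace Pool.Agent.Helper948.Nfa

section basic

variable {σ Q : Type} {A : TNFA σ Q}

theorem mem_lang {w : List σ} : w ∈ A.lang ↔ ∃ f ∈ A.accept, A.Path A.start w f := Iff.rfl

theorem path_nil_iff {p q : Q} : A.Path p [] q ↔ p = q := by
  constructor
  · intro h; cases h; rfl
  · rintro rfl; exact TNFA.Path.nil p

theorem path_cons_iff {p r : Q} {a : σ} {w : List σ} :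
    A.Path p (a :: w) r ↔ ∃ q, (p, a, q) ∈ A.trans ∧ A.Path q w r := by
  constructor
  · intro h; cases h with
    | cons h1 h2 => exact ⟨_, h1, h2⟩
  · rintro ⟨q, h1, h2⟩; exact TNFA.Path.cons h1 h2

theorem path_append_iff {u v : List σ} : ∀ {p r : Q},
    A.Path p (u ++ v) r ↔ ∃ q, A.Path p u q ∧ A.Path q v r := by
  induction u with
  | nil =>
    intro p r
    simp only [List.nil_append, path_nil_iff]
    constructor
    · intro h; exact ⟨p, rfl, h⟩
    · rintro ⟨q, rfl, h⟩; exact h
  | cons a u ih =>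
    intro p r
    simp only [List.cons_append, path_cons_iff, ih]
    constructor
    · rintro ⟨q, h1, s, h2, h3⟩; exact ⟨s, ⟨q, h1, h2⟩, h3⟩
    · rintro ⟨s, ⟨q, h1, h2⟩, h3⟩; exact ⟨q, h1, s, h2, h3⟩

theorem tc_le {Q : Type} [Fintype Q] (A : TNFA σ Q) : tc A.lang ≤ A.trans.card :=
  Nat.sInf_le ⟨Q, inferInstance, A, rfl, rfl⟩

/-- Recognisable by a `TNFA` with finitely many states. -/
def Rec (L : Language σ) : Prop :=
  ∃ (Q : Type) (_ : Fintype Q) (A : TNFA σ Q), A.lang = L

theorem exists_tc {L : Language σ} (hL : Rec L) :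
    ∃ (Q : Type) (_ : Fintype Q) (A : TNFA σ Q), A.lang = L ∧ A.trans.card = tc L := by
  have hne : {t | ∃ (Q : Type) (_ : Fintype Q) (A : TNFA σ Q), A.lang = L ∧ A.trans.card = t}.Nonempty := by
    obtain ⟨Q, hQ, A, hA⟩ := hL
    exact ⟨_, Q, hQ, A, hA, rfl⟩
  exact Nat.sInf_mem hne

end basic

section regular

variable {σ : Type}

/-- Subset construction. -/
theorem isRegular_of_rec {L : Language σ} (hL : Rec L) : L.IsRegular := by
  classical
  obtain ⟨Q, hQ, A, rfl⟩ := hL
  let M : DFA σ (Set Q) :=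
    { step := fun S a => {q | ∃ p ∈ S, (p, a, q) ∈ A.trans}
      start := {A.start}
      accept := {S | ∃ f ∈ S, f ∈ A.accept} }
  have key : ∀ (w : List σ) (S : Set Q) (q : Q), q ∈ M.evalFrom S w ↔ ∃ p ∈ S, A.Path p w q := by
    intro w
    induction w with
    | nil =>
      intro S q
      simp only [DFA.evalFrom_nil, path_nil_iff]
      constructor
      · intro h; exact ⟨q, h, rfl⟩
      · rintro ⟨p, hp, rfl⟩; exact hp
    | cons a w ih =>
      intro S q
      show q ∈ M.evalFrom (M.step S a) w ↔ _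
      rw [ih]
      simp only [path_cons_iff]
      constructor
      · rintro ⟨r, ⟨p, hp, h1⟩, h2⟩; exact ⟨p, hp, r, h1, h2⟩
      · rintro ⟨p, hp, r, h1, h2⟩; exact ⟨r, ⟨p, hp, h1⟩, h2⟩
  refine ⟨Set Q, inferInstance, M, ?_⟩
  ext w
  show M.evalFrom M.start w ∈ M.accept ↔ _
  rw [mem_lang]
  show (∃ f ∈ M.evalFrom M.start w, f ∈ A.accept) ↔ _
  constructor
  · rintro ⟨f, h1, h2⟩
    obtain ⟨p, hp, h3⟩ := (key w _ f).1 h1
    have : p = A.start := hp
    subst this
    exact ⟨f, h2, h3⟩
  · rintro ⟨f, h1, h2⟩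
    exact ⟨f, (key w _ f).2 ⟨A.start, rfl, h2⟩, h1⟩

theorem rec_of_isRegular [Fintype σ] {L : Language σ} (hL : L.IsRegular) : Rec L := by
  classical
  obtain ⟨Q, hQ, M, rfl⟩ := hL
  let A : TNFA σ Q :=
    { start := M.start
      accept := M.accept
      trans := Finset.univ.image (fun p : Q × σ => (p.1, p.2, M.step p.1 p.2)) }
  have htr : ∀ p a q, (p, a, q) ∈ A.trans ↔ q = M.step p a := by
    intro p a q
    simp only [A, Finset.mem_image, Finset.mem_univ, true_and, Prod.exists, Prod.mk.injEq]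
    constructor
    · rintro ⟨p', a', rfl, rfl, rfl⟩; rfl
    · rintro rfl; exact ⟨p, a, rfl, rfl, rfl⟩
  have key : ∀ (w : List σ) (p q : Q), A.Path p w q ↔ q = M.evalFrom p w := by
    intro w
    induction w with
    | nil =>
      intro p q
      rw [path_nil_iff, DFA.evalFrom_nil]; exact eq_comm
    | cons a w ih =>
      intro p q
      simp only [path_cons_iff, htr, ih]
      show _ ↔ q = M.evalFrom (M.step p a) w
      constructor
      · rintro ⟨r, rfl, h⟩; exact h
      · intro h; exact ⟨_, rfl, h⟩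
  refine ⟨Q, hQ, A, ?_⟩
  ext w
  rw [mem_lang]
  show _ ↔ M.evalFrom M.start w ∈ M.accept
  constructor
  · rintro ⟨f, h1, h2⟩
    rw [key] at h2
    rw [← h2]; exact h1
  · intro h
    exact ⟨_, h, (key w _ _).2 rfl⟩

end regular

section simulation

variable {σ Q Γ : Type}

/-- The states reachable from `S` by reading the word `u`. -/
def post (A : TNFA σ Q) (u : List σ) (S : Set Q) : Set Q := {q | ∃ p ∈ S, A.Path p u q}

/-- The simulating automaton: its states are sets of states of `A`; from a set `S` in the family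
`F` one moves, on reading the letter `c`, to any of the sets in `D S c`. -/
noncomputable def sim (A : TNFA σ Q) (F : Finset (Set Q)) (D : Set Q → Γ → Finset (Set Q))
    [Fintype Γ] [DecidableEq (Set Q × Γ × Set Q)] : TNFA Γ (Set Q) where
  start := {A.start}
  accept := {S | ∃ f ∈ S, f ∈ A.accept}
  trans := F.biUnion (fun S => (Finset.univ : Finset Γ).biUnion (fun c =>
    (D S c).image (fun X => (S, c, X))))

theorem mem_sim_trans (A : TNFA σ Q) (F : Finset (Set Q)) (D : Set Q → Γ → Finset (Set Q))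
    [Fintype Γ] [DecidableEq (Set Q × Γ × Set Q)] (S : Set Q) (c : Γ) (X : Set Q) :
    (S, c, X) ∈ (sim A F D).trans ↔ S ∈ F ∧ X ∈ D S c := by
  unfold sim
  simp only [Finset.mem_biUnion, Finset.mem_univ, true_and, Finset.mem_image, Prod.mk.injEq]
  constructor
  · rintro ⟨S', hS', c', X', hX', rfl, rfl, rfl⟩; exact ⟨hS', hX'⟩
  · rintro ⟨h1, h2⟩; exact ⟨S, h1, c, X, h2, rfl, rfl, rfl⟩

theorem sim_lang (A : TNFA σ Q) (h : Γ → List σ) (F : Finset (Set Q))
    (D : Set Q → Γ → Finset (Set Q)) [Fintype Γ] [DecidableEq (Set Q × Γ × Set Q)]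
    (hstart : {A.start} ∈ F) (hD : ∀ S ∈ F, ∀ c, ∀ X ∈ D S c, X ∈ F)
    (hU : ∀ S ∈ F, ∀ c q, (∃ X ∈ D S c, q ∈ X) ↔ q ∈ post A (h c) S) :
    (sim A F D).lang = inverseImage h A.lang := by
  have key : ∀ (w : List Γ) (S : Set Q), S ∈ F → ∀ q,
      (∃ X, (sim A F D).Path S w X ∧ q ∈ X) ↔ q ∈ post A (w.flatMap h) S := by
    intro w
    induction w with
    | nil =>
      intro S _ q
      simp only [path_nil_iff, List.flatMap_nil, post, Set.mem_ofPred_eq]
      constructor
      · rintro ⟨X, rfl, hq⟩; exact ⟨q, hq, rfl⟩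
      · rintro ⟨p, hp, rfl⟩; exact ⟨S, rfl, hp⟩
    | cons c w ih =>
      intro S hS q
      simp only [path_cons_iff, mem_sim_trans, List.flatMap_cons]
      constructor
      · rintro ⟨X, ⟨Y, ⟨_, hY⟩, hYX⟩, hq⟩
        obtain ⟨p, hp, hpq⟩ := (ih Y (hD S hS c Y hY) q).1 ⟨X, hYX, hq⟩
        obtain ⟨r, hr, hrp⟩ := (hU S hS c p).1 ⟨Y, hY, hp⟩
        exact ⟨r, hr, path_append_iff.2 ⟨p, hrp, hpq⟩⟩
      · rintro ⟨r, hr, hrq⟩
        obtain ⟨p, hrp, hpq⟩ := path_append_iff.1 hrq
        obtain ⟨Y, hY, hp⟩ := (hU S hS c p).2 ⟨r, hr, hrp⟩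
        obtain ⟨X, hYX, hq⟩ := (ih Y (hD S hS c Y hY) q).2 ⟨p, hp, hpq⟩
        exact ⟨X, ⟨Y, ⟨hS, hY⟩, hYX⟩, hq⟩
  ext w
  rw [mem_lang]
  show _ ↔ ∃ f ∈ A.accept, A.Path A.start (w.flatMap h) f
  constructor
  · rintro ⟨X, ⟨f, hfX, hf⟩, hX⟩
    obtain ⟨p, hp, hpf⟩ := (key w {A.start} hstart f).1 ⟨X, hX, hfX⟩
    have : p = A.start := hp
    subst this
    exact ⟨f, hf, hpf⟩
  · rintro ⟨f, hf, hpf⟩
    obtain ⟨X, hX, hfX⟩ := (key w {A.start} hstart f).2 ⟨A.start, rfl, hpf⟩
    exact ⟨X, ⟨f, hfX, hf⟩, hX⟩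

theorem sim_card (A : TNFA σ Q) (F : Finset (Set Q)) (D : Set Q → Γ → Finset (Set Q))
    [Fintype Γ] [DecidableEq (Set Q × Γ × Set Q)] :
    (sim A F D).trans.card ≤ ∑ S ∈ F, ∑ c : Γ, (D S c).card := by
  refine (Finset.card_biUnion_le).trans (Finset.sum_le_sum fun S _ => ?_)
  refine (Finset.card_biUnion_le).trans (Finset.sum_le_sum fun c _ => ?_)
  exact Finset.card_image_le

end simulation

section upper

variable {σ Q Γ : Type}

theorem path_end_mem {A : TNFA σ Q} {U : Set Q} (hU : ∀ p a q, (p, a, q) ∈ A.trans → q ∈ U)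
    {p q : Q} {w : List σ} (h : A.Path p w q) (hp : p ∈ U) : q ∈ U := by
  induction h with
  | nil p => exact hp
  | cons h1 _ ih => exact ih (hU _ _ _ h1)

/-- The combinatorial upper bound, with a free block size `s`. -/
theorem tc_inverseImage_le [Fintype Γ] {L : Language σ} (hL : Rec L) (h : Γ → List σ) (s : ℕ)
    (hs : 1 ≤ s) :
    tc (inverseImage h L) ≤ ((tc L + 1) / s + 1) * Fintype.card Γ *
      (2 ^ s * s + Fintype.card Γ * (tc L + 1)) := by
  classical
  obtain ⟨Q, hQ, A, rfl, hcard⟩ := exists_tc hL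
  rw [← hcard]
  set m := A.trans.card with hm
  set k := Fintype.card Γ with hk
  set nb := (m + 1) / s + 1 with hnb
  -- the used states
  set U : Finset Q := insert A.start (A.trans.image (fun t => t.2.2)) with hUdef
  have hUcard : U.card ≤ m + 1 := by
    refine (Finset.card_insert_le _ _).trans ?_
    have := Finset.card_image_le (s := A.trans) (f := fun t => t.2.2)
    omega
  have hUstart : A.start ∈ U := Finset.mem_insert_self _ _
  have hUtrans : ∀ p a q, (p, a, q) ∈ A.trans → q ∈ (U : Set Q) := by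
    intro p a q hpq
    exact Finset.mem_coe.2 (Finset.mem_insert_of_mem (Finset.mem_image.2 ⟨_, hpq, rfl⟩))
  have hpost : ∀ (u : List σ) (S : Set Q), S ⊆ U → post A u S ⊆ U := by
    rintro u S hS q ⟨p, hp, hpq⟩
    exact path_end_mem hUtrans hpq (hS hp)
  -- an enumeration
  obtain ⟨e, he1, he2⟩ : ∃ e : Q → ℕ, (∀ q ∈ U, e q < U.card) ∧
      (∀ p ∈ U, ∀ q ∈ U, e p = e q → p = q) := by
    refine ⟨fun q => if hq : q ∈ U then (U.equivFin ⟨q, hq⟩ : ℕ) else 0, ?_, ?_⟩
    · intro q hq
      simp only [dif_pos hq]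
      exact Fin.isLt _
    · intro p hp q hq hpq
      simp only [dif_pos hp, dif_pos hq] at hpq
      have := U.equivFin.injective (Fin.ext hpq)
      exact congrArg Subtype.val this
  set block : ℕ → Finset Q := fun j => U.filter (fun q => e q / s = j) with hblock
  have hbcard : ∀ j, (block j).card ≤ s := by
    intro j
    have h1 : ((block j).image e) ⊆ Finset.Ico (j * s) (j * s + s) := by
      intro x hx
      obtain ⟨q, hq, rfl⟩ := Finset.mem_image.1 hx
      rw [Finset.mem_filter] at hq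
      rw [Finset.mem_Ico]
      have h2 := Nat.div_mul_le_self (e q) s
      have h3 := Nat.lt_div_mul_add (a := e q) (show 0 < s by omega)
      rw [hq.2] at h2 h3
      exact ⟨h2, h3⟩
    have h2 : (block j).card = ((block j).image e).card := by
      rw [Finset.card_image_of_injOn]
      intro p hp q hq hpq
      simp only [hblock, Finset.coe_filter, Set.mem_ofPred_eq] at hp hq
      exact he2 p hp.1 q hq.1 hpq
    rw [h2]
    refine (Finset.card_le_card h1).trans ?_
    simp
  -- the family of sets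
  set F1 : Finset (Set Q) := (Finset.range nb).biUnion
    (fun j => (block j).powerset.image (fun Y : Finset Q => (Y : Set Q))) with hF1
  set F2 : Finset (Set Q) := (Finset.univ : Finset Γ).biUnion
    (fun b => U.image (fun i => post A (h b) {i})) with hF2
  have hF1U : ∀ S ∈ F1, ∃ j, ∃ Y ⊆ block j, S = (Y : Set Q) := by
    intro S hS
    simp only [hF1, Finset.mem_biUnion, Finset.mem_image, Finset.mem_powerset] at hS
    obtain ⟨j, _, Y, hY, rfl⟩ := hS
    exact ⟨j, Y, hY, rfl⟩
  have hF1sub : ∀ S ∈ F1, S ⊆ (U : Set Q) := by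
    intro S hS
    obtain ⟨j, Y, hY, rfl⟩ := hF1U S hS
    intro q hq
    exact Finset.mem_coe.2 (Finset.mem_filter.1 (hY hq)).1
  have hF2sub : ∀ S ∈ F2, S ⊆ (U : Set Q) := by
    intro S hS
    simp only [hF2, Finset.mem_biUnion, Finset.mem_univ, true_and, Finset.mem_image] at hS
    obtain ⟨b, i, hi, rfl⟩ := hS
    apply hpost
    intro q hq
    have : q = i := hq
    subst this
    exact Finset.mem_coe.2 hi
  set D : Set Q → Γ → Finset (Set Q) := fun S c =>
    if S ∈ F1 then (U.filter (fun i => i ∈ S)).image (fun i => post A (h c) {i})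
    else (Finset.range nb).image (fun j => post A (h c) S ∩ (block j : Set Q)) with hDdef
  have hstart : ({A.start} : Set Q) ∈ F1 ∪ F2 := by
    apply Finset.mem_union_left
    simp only [hF1, Finset.mem_biUnion, Finset.mem_image, Finset.mem_powerset, Finset.mem_range]
    refine ⟨e A.start / s, ?_, {A.start}, ?_, by simp⟩
    · have h1 := he1 _ hUstart
      have h2 : e A.start / s ≤ (m + 1) / s := Nat.div_le_div_right (by omega)
      omega
    · intro q hq
      rw [Finset.mem_singleton] at hq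
      subst hq
      exact Finset.mem_filter.2 ⟨hUstart, rfl⟩
  have hD : ∀ S ∈ F1 ∪ F2, ∀ c, ∀ X ∈ D S c, X ∈ F1 ∪ F2 := by
    intro S hS c X hX
    by_cases hS1 : S ∈ F1
    · simp only [hDdef, if_pos hS1, Finset.mem_image, Finset.mem_filter] at hX
      obtain ⟨i, ⟨hi, _⟩, rfl⟩ := hX
      apply Finset.mem_union_right
      simp only [hF2, Finset.mem_biUnion, Finset.mem_univ, true_and, Finset.mem_image]
      exact ⟨c, i, hi, rfl⟩
    · simp only [hDdef, if_neg hS1, Finset.mem_image, Finset.mem_range] at hX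
      obtain ⟨j, hj, rfl⟩ := hX
      apply Finset.mem_union_left
      simp only [hF1, Finset.mem_biUnion, Finset.mem_image, Finset.mem_powerset, Finset.mem_range]
      refine ⟨j, hj, (block j).filter (fun q => q ∈ post A (h c) S), Finset.filter_subset _ _, ?_⟩
      ext q
      simp only [Finset.coe_filter, Set.mem_ofPred_eq, Set.mem_inter_iff, Finset.mem_coe]
      tauto
  have hUn : ∀ S ∈ F1 ∪ F2, ∀ c q, (∃ X ∈ D S c, q ∈ X) ↔ q ∈ post A (h c) S := by
    intro S hS c q
    by_cases hS1 : S ∈ F1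
    · simp only [hDdef, if_pos hS1, Finset.mem_image, Finset.mem_filter]
      constructor
      · rintro ⟨X, ⟨i, ⟨_, hiS⟩, rfl⟩, p, hp, hpq⟩
        have : p = i := hp
        subst this
        exact ⟨p, hiS, hpq⟩
      · rintro ⟨p, hp, hpq⟩
        exact ⟨_, ⟨p, ⟨Finset.mem_coe.1 (hF1sub S hS1 hp), hp⟩, rfl⟩, p, rfl, hpq⟩
    · simp only [hDdef, if_neg hS1, Finset.mem_image, Finset.mem_range]
      constructor
      · rintro ⟨X, ⟨j, _, rfl⟩, hq, _⟩
        exact hq
      · intro hq
        have hS2 : S ∈ F2 := by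
          rcases Finset.mem_union.1 hS with h1 | h1
          · exact absurd h1 hS1
          · exact h1
        have hqU : q ∈ U := Finset.mem_coe.1 (hpost (h c) S (hF2sub S hS2) hq)
        refine ⟨_, ⟨e q / s, ?_, rfl⟩, hq, ?_⟩
        · have h1 := he1 _ hqU
          have h2 : e q / s ≤ (m + 1) / s := Nat.div_le_div_right (by omega)
          omega
        · exact Finset.mem_coe.2 (Finset.mem_filter.2 ⟨hqU, rfl⟩)
  have hlang := sim_lang A h (F1 ∪ F2) D hstart hD hUn
  rw [← hlang]
  refine (tc_le _).trans ((sim_card A (F1 ∪ F2) D).trans ?_)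
  -- counting
  have hF1card : F1.card ≤ nb * 2 ^ s := by
    refine (Finset.card_biUnion_le).trans ?_
    have h1 : ∀ j ∈ Finset.range nb,
        ((block j).powerset.image (fun Y : Finset Q => (Y : Set Q))).card ≤ 2 ^ s := by
      intro j _
      refine (Finset.card_image_le).trans ?_
      rw [Finset.card_powerset]
      exact Nat.pow_le_pow_right (by norm_num) (hbcard j)
    refine (Finset.sum_le_sum h1).trans ?_
    simp
  have hF2card : F2.card ≤ k * (m + 1) := by
    refine (Finset.card_biUnion_le).trans ?_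
    have h1 : ∀ b ∈ (Finset.univ : Finset Γ),
        (U.image (fun i => post A (h b) {i})).card ≤ m + 1 := fun b _ =>
      (Finset.card_image_le).trans hUcard
    refine (Finset.sum_le_sum h1).trans ?_
    simp [hk]
  have hD1 : ∀ S ∈ F1, ∑ c : Γ, (D S c).card ≤ k * s := by
    intro S hS
    have h1 : ∀ c ∈ (Finset.univ : Finset Γ), (D S c).card ≤ s := by
      intro c _
      simp only [hDdef, if_pos hS]
      refine (Finset.card_image_le).trans ?_
      obtain ⟨j, Y, hY, hSY⟩ := hF1U S hS
      refine le_trans (Finset.card_le_card ?_) ((Finset.card_le_card hY).trans (hbcard j))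
      intro i hi
      have h2 := (Finset.mem_filter.1 hi).2
      rw [hSY] at h2
      exact Finset.mem_coe.1 h2
    refine (Finset.sum_le_sum h1).trans ?_
    simp [hk]
  have hD2 : ∀ S ∈ F2 \ F1, ∑ c : Γ, (D S c).card ≤ k * nb := by
    intro S hS
    have h1 : ∀ c ∈ (Finset.univ : Finset Γ), (D S c).card ≤ nb := by
      intro c _
      simp only [hDdef, if_neg (Finset.mem_sdiff.1 hS).2]
      refine (Finset.card_image_le).trans ?_
      simp
    refine (Finset.sum_le_sum h1).trans ?_
    simp [hk]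
  have hsplit : F1 ∪ F2 = F1 ∪ (F2 \ F1) := (Finset.union_sdiff_self_eq_union).symm
  rw [hsplit, Finset.sum_union Finset.disjoint_sdiff]
  have e1 : ∑ S ∈ F1, ∑ c : Γ, (D S c).card ≤ (nb * 2 ^ s) * (k * s) := by
    refine (Finset.sum_le_sum hD1).trans ?_
    rw [Finset.sum_const, smul_eq_mul]
    exact Nat.mul_le_mul_right _ hF1card
  have e2 : ∑ S ∈ F2 \ F1, ∑ c : Γ, (D S c).card ≤ (k * (m + 1)) * (k * nb) := by
    refine (Finset.sum_le_sum hD2).trans ?_
    rw [Finset.sum_const, smul_eq_mul]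
    exact Nat.mul_le_mul_right _ ((Finset.card_le_card Finset.sdiff_subset).trans hF2card)
  calc _ ≤ (nb * 2 ^ s) * (k * s) + (k * (m + 1)) * (k * nb) := Nat.add_le_add e1 e2
    _ = nb * k * (2 ^ s * s + k * (m + 1)) := by ring

theorem rec_inverseImage [Fintype Γ] {L : Language σ} (hL : Rec L) (h : Γ → List σ) :
    Rec (inverseImage h L) := by
  classical
  obtain ⟨Q, hQ, A, rfl⟩ := hL
  refine ⟨Set Q, inferInstance, sim A Finset.univ (fun S c => {post A (h c) S}), ?_⟩
  apply sim_lang
  · exact Finset.mem_univ _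
  · intro S _ c X _; exact Finset.mem_univ _
  · intro S _ c q
    simp

/-- The upper bound in closed form. -/
theorem tc_inverseImage_real [Fintype Γ] {L : Language σ} (hL : Rec L) (h : Γ → List σ)
    (hm : 2 ≤ tc L) :
    (tc (inverseImage h L) : ℝ) ≤ 9 * (Fintype.card Γ) * (Fintype.card Γ + 2) *
      (tc L : ℝ) ^ 2 / Real.log (tc L) := by
  set m := tc L with hmdef
  set k := Fintype.card Γ with hk
  set l := Nat.log 2 (m + 1) with hl
  set s := l / 2 + 1 with hs
  have h1 := tc_inverseImage_le hL h s (by omega)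
  rw [← hmdef, ← hk] at h1
  -- size of s
  have hlog : 2 ^ l ≤ m + 1 := Nat.pow_log_le_self 2 (by omega)
  have hpow : 2 ^ (l / 2) * 2 ^ (l / 2) ≤ m + 1 := by
    rw [← pow_add]
    exact (Nat.pow_le_pow_right (by norm_num) (by omega)).trans hlog
  have hs2 : s ≤ 2 ^ (l / 2) := by
    have : l / 2 < 2 ^ (l / 2) := Nat.lt_two_pow_self
    omega
  have hss : 2 ^ s * s ≤ 2 * (m + 1) := by
    calc 2 ^ s * s ≤ (2 ^ (l / 2) * 2) * 2 ^ (l / 2) := by
          rw [hs, pow_succ]
          exact Nat.mul_le_mul_left _ hs2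
      _ = 2 * (2 ^ (l / 2) * 2 ^ (l / 2)) := by ring
      _ ≤ 2 * (m + 1) := Nat.mul_le_mul_left _ hpow
  have hsm : s ≤ m + 1 := by
    have h2 : 1 ≤ 2 ^ (l / 2) := Nat.one_le_two_pow
    nlinarith
  have hnb : ((m + 1) / s + 1) * s ≤ 2 * (m + 1) := by
    have := Nat.div_mul_le_self (m + 1) s
    nlinarith
  have h2 : tc (inverseImage h L) * s ≤ 2 * k * (k + 2) * (m + 1) ^ 2 := by
    calc tc (inverseImage h L) * s
        ≤ (((m + 1) / s + 1) * k * (2 ^ s * s + k * (m + 1))) * s := Nat.mul_le_mul_right _ h1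
      _ ≤ (((m + 1) / s + 1) * k * (2 * (m + 1) + k * (m + 1))) * s := by
          apply Nat.mul_le_mul_right
          apply Nat.mul_le_mul_left
          exact Nat.add_le_add_right hss _
      _ = (((m + 1) / s + 1) * s) * (k * (k + 2) * (m + 1)) := by ring
      _ ≤ (2 * (m + 1)) * (k * (k + 2) * (m + 1)) := Nat.mul_le_mul_right _ hnb
      _ = 2 * k * (k + 2) * (m + 1) ^ 2 := by ring
  have h3 : (tc (inverseImage h L) : ℝ) * s ≤ 2 * k * (k + 2) * (m + 1) ^ 2 := by exact_mod_cast h2
  have hmr : (2 : ℝ) ≤ m := by exact_mod_cast hm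
  have hlogm : 0 < Real.log m := Real.log_pos (by linarith)
  have hsr : Real.log m ≤ 2 * s := by
    have h4 : m < 2 ^ (l + 1) := by
      have h4' : m + 1 < 2 ^ (l + 1) := Nat.lt_pow_succ_log_self (b := 2) (by norm_num) (m + 1)
      exact lt_trans (Nat.lt_succ_self m) h4'
    have h5 : (m : ℝ) ≤ 2 ^ (l + 1) := by exact_mod_cast h4.le
    have h6 : Real.log m ≤ (l + 1 : ℕ) * Real.log 2 := by
      rw [← Real.log_pow]
      exact Real.log_le_log (by linarith) h5
    have h7 : Real.log 2 < 1 := by linarith [Real.log_two_lt_d9]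
    have h8 : ((l + 1 : ℕ) : ℝ) ≤ 2 * s := by
      have : l + 1 ≤ 2 * s := by omega
      exact_mod_cast this
    have h9 : ((l + 1 : ℕ) : ℝ) * Real.log 2 ≤ (l + 1 : ℕ) * 1 :=
      mul_le_mul_of_nonneg_left h7.le (Nat.cast_nonneg _)
    linarith
  rw [le_div_iff₀ hlogm]
  have h10 : (tc (inverseImage h L) : ℝ) * Real.log m ≤ tc (inverseImage h L) * (2 * s) :=
    mul_le_mul_of_nonneg_left hsr (Nat.cast_nonneg _)
  have h11 : ((m : ℝ) + 1) ^ 2 ≤ 9 / 4 * (m : ℝ) ^ 2 := by nlinarith
  have h12 : (0 : ℝ) ≤ 4 * k * (k + 2) := by positivity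
  calc (tc (inverseImage h L) : ℝ) * Real.log m ≤ tc (inverseImage h L) * (2 * s) := h10
    _ = 2 * (tc (inverseImage h L) * s) := by ring
    _ ≤ 2 * (2 * k * (k + 2) * (m + 1) ^ 2) := by linarith
    _ = 4 * k * (k + 2) * (((m : ℝ) + 1) ^ 2) := by ring
    _ ≤ 4 * k * (k + 2) * (9 / 4 * (m : ℝ) ^ 2) := mul_le_mul_of_nonneg_left h11 h12
    _ = 9 * k * (k + 2) * (m : ℝ) ^ 2 := by ring

end upper

section counting

variable {Γ Q : Type}

/-- Renaming the used states by numbers below `t + 1`. -/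
theorem normal_form {L : Language Γ} (hL : Rec L) (t : ℕ) (ht : tc L ≤ t) :
    ∃ A : TNFA Γ (Fin (t + 1)), A.lang = L ∧ A.trans.card ≤ t := by
  classical
  obtain ⟨Q, hQ, A, rfl, hcard⟩ := exists_tc hL
  rw [← hcard] at ht
  set U : Finset Q := insert A.start (A.trans.image (fun t => t.2.2)) with hUdef
  have hUcard : U.card ≤ t + 1 := by
    refine (Finset.card_insert_le _ _).trans ?_
    have := Finset.card_image_le (s := A.trans) (f := fun t => t.2.2)
    omega
  have hUstart : A.start ∈ U := Finset.mem_insert_self _ _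
  have hUtrans : ∀ p a q, (p, a, q) ∈ A.trans → q ∈ U := by
    intro p a q hpq
    exact Finset.mem_insert_of_mem (Finset.mem_image.2 ⟨_, hpq, rfl⟩)
  obtain ⟨e, he⟩ : ∃ e : Q → Fin (t + 1), ∀ p ∈ U, ∀ q ∈ U, e p = e q → p = q := by
    refine ⟨fun q => if hq : q ∈ U then Fin.castLE hUcard (U.equivFin ⟨q, hq⟩) else 0, ?_⟩
    intro p hp q hq hpq
    simp only [dif_pos hp, dif_pos hq] at hpq
    have := U.equivFin.injective (Fin.castLE_injective hUcard hpq)
    exact congrArg Subtype.val this
  let B : TNFA Γ (Fin (t + 1)) :=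
    { start := e A.start
      accept := {i | ∃ f ∈ U, f ∈ A.accept ∧ e f = i}
      trans := (A.trans.filter (fun r => r.1 ∈ U)).image (fun r => (e r.1, r.2.1, e r.2.2)) }
  have hB : ∀ i a j, (i, a, j) ∈ B.trans ↔ ∃ p ∈ U, ∃ q, (p, a, q) ∈ A.trans ∧ e p = i ∧ e q = j := by
    intro i a j
    simp only [B, Finset.mem_image, Finset.mem_filter, Prod.mk.injEq, Prod.exists]
    constructor
    · rintro ⟨p, a', q, ⟨h1, h2⟩, rfl, rfl, rfl⟩; exact ⟨p, h2, q, h1, rfl, rfl⟩
    · rintro ⟨p, h2, q, h1, rfl, rfl⟩; exact ⟨p, a, q, ⟨h1, h2⟩, rfl, rfl, rfl⟩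
  have key : ∀ (w : List Γ) (p : Q), p ∈ U → ∀ j,
      B.Path (e p) w j ↔ ∃ q ∈ U, A.Path p w q ∧ e q = j := by
    intro w
    induction w with
    | nil =>
      intro p hp j
      simp only [path_nil_iff]
      constructor
      · rintro rfl; exact ⟨p, hp, rfl, rfl⟩
      · rintro ⟨q, _, rfl, h⟩; exact h
    | cons a w ih =>
      intro p hp j
      simp only [path_cons_iff, hB]
      constructor
      · rintro ⟨i, ⟨p', hp', q, hq, h1, rfl⟩, h2⟩
        have := he p' hp' p hp h1
        subst this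
        obtain ⟨r, hr, h3, h4⟩ := (ih q (hUtrans _ _ _ hq) j).1 h2
        exact ⟨r, hr, ⟨q, hq, h3⟩, h4⟩
      · rintro ⟨r, hr, ⟨q, hq, h3⟩, h4⟩
        exact ⟨e q, ⟨p, hp, q, hq, rfl, rfl⟩, (ih q (hUtrans _ _ _ hq) j).2 ⟨r, hr, h3, h4⟩⟩
  refine ⟨B, ?_, ?_⟩
  · ext w
    rw [mem_lang, mem_lang]
    constructor
    · rintro ⟨i, ⟨f, hf, hfa, rfl⟩, h1⟩
      obtain ⟨q, hq, h2, h3⟩ := (key w A.start hUstart _).1 h1
      have := he q hq f hf h3
      subst this
      exact ⟨q, hfa, h2⟩
    · rintro ⟨f, hfa, h1⟩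
      have hf : f ∈ U := by
        have := path_end_mem (A := A) (U := (U : Set Q))
          (fun p a q h => Finset.mem_coe.2 (hUtrans p a q h)) h1 (Finset.mem_coe.2 hUstart)
        exact Finset.mem_coe.1 this
      exact ⟨e f, ⟨f, hf, hfa, rfl⟩, (key w A.start hUstart _).2 ⟨f, hf, h1, rfl⟩⟩
  · refine (Finset.card_image_le).trans ((Finset.card_filter_le _ _).trans ht)

/-- Counting languages of transition complexity at most `t`. -/
theorem count_bound [Fintype Γ] {ι : Type} [Fintype ι] (t : ℕ) (F : ι → Language Γ)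
    (hF : Function.Injective F) (hR : ∀ i, Rec (F i)) (ht : ∀ i, tc (F i) ≤ t) :
    Fintype.card ι ≤ (t + 1) * (2 ^ (t + 1) *
      ((t + 1) * (Fintype.card Γ * (t + 1)) + 1) ^ t) := by
  classical
  choose A hA1 hA2 using fun i => normal_form (hR i) t (ht i)
  let X := Fin (t + 1) × Γ × Fin (t + 1)
  let code : ι → Fin (t + 1) × Set (Fin (t + 1)) × (Fin t → Option X) := fun i =>
    ((A i).start, (A i).accept, fun r => (A i).trans.toList[(r : ℕ)]?)
  have hcode : Function.Injective code := by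
    intro i j hij
    apply hF
    rw [← hA1 i, ← hA1 j]
    have h1 : (A i).start = (A j).start := congrArg Prod.fst hij
    have h2 : (A i).accept = (A j).accept := congrArg (fun c => c.2.1) hij
    have h3 : ∀ r : Fin t, (A i).trans.toList[(r : ℕ)]? = (A j).trans.toList[(r : ℕ)]? := by
      intro r
      exact congrFun (congrArg (fun c => c.2.2) hij) r
    have h4 : (A i).trans.toList = (A j).trans.toList := by
      apply List.ext_getElem?
      intro r
      rcases Nat.lt_or_ge r t with h | h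
      · exact h3 ⟨r, h⟩
      · rw [List.getElem?_eq_none, List.getElem?_eq_none]
        · rw [Finset.length_toList]; exact (hA2 j).trans h
        · rw [Finset.length_toList]; exact (hA2 i).trans h
    have h5 : (A i).trans = (A j).trans := by
      ext x
      rw [← Finset.mem_toList, h4, Finset.mem_toList]
    have : A i = A j := by
      cases hAi : A i
      cases hAj : A j
      simp only [hAi, hAj] at h1 h2 h5
      subst h1 h2 h5
      rfl
    rw [this]
  have h := Fintype.card_le_of_injective code hcode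
  refine h.trans (le_of_eq ?_)
  simp only [Fintype.card_prod, Fintype.card_fin, Fintype.card_set, Fintype.card_pi_const,
    Fintype.card_option, X]

end counting

section padding

variable {σ : Type}

/-- Deleting or adding transitions: monotonicity of paths. -/
theorem path_mono {Q : Type} {A B : TNFA σ Q} (h : A.trans ⊆ B.trans) {p q : Q} {w : List σ}
    (hp : A.Path p w q) : B.Path p w q := by
  induction hp with
  | nil p => exact TNFA.Path.nil p
  | cons h1 _ ih => exact TNFA.Path.cons (h h1) ih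

/-- Adding one new letter word raises the transition complexity by exactly one. -/
theorem tc_pad (L : Language σ) (hL : Rec L) (e e' : σ) (he : [e] ∈ L)
    (hu : ∀ w ∈ L, e ∈ w → w = [e]) (hn : ∀ w ∈ L, e' ∉ w) :
    Rec (L ∪ {[e']} : Set (List σ)) ∧ tc (L ∪ {[e']} : Set (List σ)) = tc L + 1 := by
  classical
  obtain ⟨Q, hQ, A, hA, hcard⟩ := exists_tc hL
  -- no transition enters the start state
  have hno : ∀ p a, (p, a, A.start) ∉ A.trans := by
    intro p a hpa
    -- the transition is useful, by minimality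
    by_cases huse : ∃ u, A.Path A.start u p
    · obtain ⟨u, hu1⟩ := huse
      have h1 : A.Path A.start (u ++ [a]) A.start :=
        path_append_iff.2 ⟨p, hu1, TNFA.Path.cons hpa (TNFA.Path.nil _)⟩
      have h2 : [e] ∈ A.lang := by rw [hA]; exact he
      obtain ⟨f, hf, hpf⟩ := h2
      have h3 : (u ++ [a]) ++ [e] ∈ A.lang := ⟨f, hf, path_append_iff.2 ⟨_, h1, hpf⟩⟩
      rw [hA] at h3
      have h4 := hu _ h3 (by simp)
      have h5 := congrArg List.length h4
      simp at h5
    · -- removing the transition gives a smaller automaton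
      let B : TNFA σ Q := { start := A.start, accept := A.accept, trans := A.trans.erase (p, a, A.start) }
      have hB : B.lang = L := by
        rw [← hA]
        have key : ∀ {x y : Q} {w : List σ}, A.Path x w y → (∃ u, A.Path A.start u x) → B.Path x w y := by
          intro x y w h
          induction h with
          | nil x => intro _; exact TNFA.Path.nil x
          | @cons x b y w z h1 h2 ih =>
            rintro ⟨u, hu1⟩
            refine TNFA.Path.cons ?_ (ih ⟨u ++ [b], path_append_iff.2 ⟨x, hu1,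
              TNFA.Path.cons h1 (TNFA.Path.nil _)⟩⟩)
            show (x, b, y) ∈ A.trans.erase (p, a, A.start)
            rw [Finset.mem_erase]
            refine ⟨?_, h1⟩
            intro heq
            have : x = p := congrArg Prod.fst heq
            subst this
            exact huse ⟨u, hu1⟩
        ext w
        constructor
        · rintro ⟨f, hf, h⟩
          exact ⟨f, hf, path_mono (Finset.erase_subset _ _) h⟩
        · rintro ⟨f, hf, h⟩
          exact ⟨f, hf, key h ⟨[], TNFA.Path.nil _⟩⟩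
      have h1 : tc L ≤ B.trans.card := by rw [← hB]; exact tc_le B
      have h2 : B.trans.card = A.trans.card - 1 := Finset.card_erase_of_mem hpa
      have h3 : 0 < A.trans.card := Finset.card_pos.2 ⟨_, hpa⟩
      omega
  -- the state reached by `e`
  have h1 : [e] ∈ A.lang := by rw [hA]; exact he
  obtain ⟨f, hf, hpf⟩ := h1
  have hef : (A.start, e, f) ∈ A.trans := by
    obtain ⟨q, h2, h3⟩ := path_cons_iff.1 hpf
    rw [path_nil_iff] at h3
    subst h3
    exact h2
  have hfs : f ≠ A.start := by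
    intro h
    subst h
    exact hno _ _ hef
  have hfdead : ∀ v g, g ∈ A.accept → A.Path f v g → v = [] := by
    intro v g hg hv
    have h2 : [e] ++ v ∈ A.lang := ⟨g, hg, path_append_iff.2 ⟨f, hpf, hv⟩⟩
    rw [hA] at h2
    have h3 := hu _ h2 (by simp)
    simpa using h3
  let B : TNFA σ Q := { start := A.start, accept := A.accept, trans := insert (A.start, e', f) A.trans }
  have hBstart : ∀ p a, (p, a, A.start) ∉ B.trans := by
    intro p a h
    rcases Finset.mem_insert.1 h with h | h
    · exact hfs (congrArg (fun x => x.2.2) h).symm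
    · exact hno p a h
  have hBpath : ∀ {x y : Q} {w : List σ}, B.Path x w y → x ≠ A.start → A.Path x w y := by
    intro x y w h
    induction h with
    | nil x => intro _; exact TNFA.Path.nil x
    | @cons x b y w z h1 h2 ih =>
      intro hx
      have hy : y ≠ A.start := by
        intro h; subst h; exact hBstart _ _ h1
      rcases Finset.mem_insert.1 h1 with h3 | h3
      · exact absurd (congrArg Prod.fst h3) hx
      · exact TNFA.Path.cons h3 (ih hy)
  have hBlang : B.lang = (L ∪ {[e']} : Set (List σ)) := by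
    ext w
    constructor
    · rintro ⟨g, hg, h⟩
      cases w with
      | nil =>
        left
        rw [path_nil_iff] at h
        rw [← hA]
        exact ⟨g, hg, path_nil_iff.2 h⟩
      | cons a w =>
        obtain ⟨q, h2, h3⟩ := path_cons_iff.1 h
        have hq : q ≠ A.start := by
          intro h; subst h; exact hBstart _ _ h2
        have h4 := hBpath h3 hq
        rcases Finset.mem_insert.1 h2 with h5 | h5
        · right
          have ha : a = e' := congrArg (fun x => x.2.1) h5
          have hqf : q = f := congrArg (fun x => x.2.2) h5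
          subst ha hqf
          have := hfdead w g hg h4
          subst this
          rfl
        · left
          rw [← hA]
          exact ⟨g, hg, TNFA.Path.cons h5 h4⟩
    · rintro (h | h)
      · rw [← hA] at h
        obtain ⟨g, hg, h⟩ := h
        exact ⟨g, hg, path_mono (Finset.subset_insert _ _) h⟩
      · have : w = [e'] := h
        subst this
        exact ⟨f, hf, TNFA.Path.cons (Finset.mem_insert_self _ _) (TNFA.Path.nil _)⟩
  have hrec : Rec (L ∪ {[e']} : Set (List σ)) := ⟨Q, hQ, B, hBlang⟩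
  refine ⟨hrec, le_antisymm ?_ ?_⟩
  · rw [← hBlang]
    refine (tc_le B).trans ?_
    refine (Finset.card_insert_le _ _).trans ?_
    rw [hcard]
  · obtain ⟨Q', hQ', C, hC, hCcard⟩ := exists_tc hrec
    rw [← hCcard]
    let E : TNFA σ Q' := { start := C.start, accept := C.accept, trans := C.trans.filter (fun r => r.2.1 ≠ e') }
    have hE : ∀ {x y : Q'} {w : List σ}, E.Path x w y ↔ C.Path x w y ∧ e' ∉ w := by
      intro x y w
      induction w generalizing x with
      | nil => simp [path_nil_iff]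
      | cons a w ih =>
        simp only [path_cons_iff, ih]
        constructor
        · rintro ⟨q, h1, h2, h3⟩
          have h4 := Finset.mem_filter.1 h1
          refine ⟨⟨q, h4.1, h2⟩, ?_⟩
          rw [List.mem_cons]
          push Not
          exact ⟨fun h => h4.2 h.symm, h3⟩
        · rintro ⟨⟨q, h1, h2⟩, h3⟩
          rw [List.mem_cons] at h3
          push Not at h3
          exact ⟨q, Finset.mem_filter.2 ⟨h1, fun h => h3.1 h.symm⟩, h2, h3.2⟩
    have hElang : E.lang = L := by
      ext w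
      constructor
      · rintro ⟨g, hg, h⟩
        obtain ⟨h1, h2⟩ := hE.1 h
        have h3 : w ∈ C.lang := ⟨g, hg, h1⟩
        rw [hC] at h3
        rcases h3 with h3 | h3
        · exact h3
        · have : w = [e'] := h3
          subst this
          exact absurd (by simp) h2
      · intro h
        have h1 : w ∈ C.lang := by rw [hC]; exact Or.inl h
        obtain ⟨g, hg, h2⟩ := h1
        exact ⟨g, hg, hE.2 ⟨h2, hn w h⟩⟩
    have h1 : tc L ≤ E.trans.card := by rw [← hElang]; exact tc_le E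
    have h2 : E.trans.card < C.trans.card := by
      apply Finset.card_lt_card
      rw [Finset.ssubset_iff_of_subset (Finset.filter_subset _ _)]
      have h3 : [e'] ∈ C.lang := by rw [hC]; exact Or.inr rfl
      obtain ⟨g, hg, h4⟩ := h3
      obtain ⟨q, h5, _⟩ := path_cons_iff.1 h4
      exact ⟨_, h5, fun h => (Finset.mem_filter.1 h).2 rfl⟩
    omega

end padding

section ring

/-- States: `inl true` is the start state, `inl false` a dead end, `inr (true, i)` and
`inr (false, i)` are the two rings. -/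
abbrev St (n : ℕ) : Type := Bool ⊕ (Bool × ZMod n)

abbrev Lt (J : ℕ) : Type := Fin 4 ⊕ Fin J

def sS {n : ℕ} : St n := Sum.inl true
def sF {n : ℕ} : St n := Sum.inl false
def sP {n : ℕ} (i : ZMod n) : St n := Sum.inr (true, i)
def sQ {n : ℕ} (i : ZMod n) : St n := Sum.inr (false, i)

def lx {J : ℕ} : Lt J := Sum.inl 0
def ly {J : ℕ} : Lt J := Sum.inl 1
def lc {J : ℕ} : Lt J := Sum.inl 2
def lz {J : ℕ} : Lt J := Sum.inl 3
def le {J : ℕ} (i : Fin J) : Lt J := Sum.inr i

/-- The two-ring automaton. -/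
def ring (n J : ℕ) [NeZero n] [NeZero J] : TNFA (Lt J) (St n) where
  start := sS
  accept := {sQ 0, sF}
  trans :=
    (Finset.univ.image fun i : ZMod n => (sP i, lx, sP (i + 1))) ∪
    (Finset.univ.image fun i : ZMod n => (sQ i, lx, sQ i)) ∪
    (Finset.univ.image fun i : ZMod n => (sP i, ly, sP i)) ∪
    (Finset.univ.image fun i : ZMod n => (sQ i, ly, sQ (i + 1))) ∪
    (Finset.univ.image fun i : ZMod n => (sP i, lc, sP i)) ∪
    (Finset.univ.image fun i : ZMod n => (sQ i, lc, sQ i)) ∪
    (Finset.univ.image fun i : ZMod n => (sQ i, lz, sQ i)) ∪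
    {(sP 0, lc, sQ 0), (sS, lx, sP 1), (sS, ly, sP 0), (sS, lc, sP 0), (sS, lc, sQ 0),
      (sS, le 0, sF)}

variable {n J : ℕ} [NeZero n] [NeZero J]

theorem ring_card : (ring n J).trans.card ≤ 7 * n + 6 := by
  unfold ring
  have hc : ∀ (f : ZMod n → St n × Lt J × St n), (Finset.univ.image f).card ≤ n := by
    intro f
    refine (Finset.card_image_le).trans ?_
    simp [ZMod.card]
  have h6 : (({(sP 0, lc, sQ 0), (sS, lx, sP 1), (sS, ly, sP 0), (sS, lc, sP 0), (sS, lc, sQ 0),
      (sS, le 0, sF)} : Finset (St n × Lt J × St n))).card ≤ 6 := Finset.card_le_six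
  have hu : ∀ (a b : Finset (St n × Lt J × St n)) (x y : ℕ), a.card ≤ x → b.card ≤ y →
      (a ∪ b).card ≤ x + y := fun a b x y h1 h2 =>
    (Finset.card_union_le a b).trans (Nat.add_le_add h1 h2)
  have := hu _ _ _ _ (hu _ _ _ _ (hu _ _ _ _ (hu _ _ _ _ (hu _ _ _ _ (hu _ _ _ _ (hu _ _ _ _
    (hc fun i : ZMod n => (sP i, lx, sP (i + 1)))
    (hc fun i : ZMod n => (sQ i, lx, sQ i)))
    (hc fun i : ZMod n => (sP i, ly, sP i)))
    (hc fun i : ZMod n => (sQ i, ly, sQ (i + 1))))
    (hc fun i : ZMod n => (sP i, lc, sP i)))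
    (hc fun i : ZMod n => (sQ i, lc, sQ i)))
    (hc fun i : ZMod n => (sQ i, lz, sQ i))) h6
  refine this.trans (by omega)

theorem ring_mem (a b : St n) (l : Lt J) : (a, l, b) ∈ (ring n J).trans ↔
    (∃ i, a = sP i ∧ l = lx ∧ b = sP (i + 1)) ∨
    (∃ i, a = sQ i ∧ l = lx ∧ b = sQ i) ∨
    (∃ i, a = sP i ∧ l = ly ∧ b = sP i) ∨
    (∃ i, a = sQ i ∧ l = ly ∧ b = sQ (i + 1)) ∨
    (∃ i, a = sP i ∧ l = lc ∧ b = sP i) ∨
    (∃ i, a = sQ i ∧ l = lc ∧ b = sQ i) ∨
    (∃ i, a = sQ i ∧ l = lz ∧ b = sQ i) ∨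
    (a = sP 0 ∧ l = lc ∧ b = sQ 0) ∨ (a = sS ∧ l = lx ∧ b = sP 1) ∨
    (a = sS ∧ l = ly ∧ b = sP 0) ∨ (a = sS ∧ l = lc ∧ b = sP 0) ∨
    (a = sS ∧ l = lc ∧ b = sQ 0) ∨ (a = sS ∧ l = le 0 ∧ b = sF) := by
  have e : ∀ (f : ZMod n → St n × Lt J × St n) (t : St n × Lt J × St n),
      t ∈ Finset.univ.image f ↔ ∃ i, f i = t := by
    intro f t; simp
  unfold ring
  simp only [Finset.mem_union, e, Finset.mem_insert, Finset.mem_singleton, Prod.mk.injEq, or_assoc]
  simp only [eq_comm (a := a), eq_comm (a := l), eq_comm (a := b)]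

theorem sP_ne_sQ (i j : ZMod n) : sP i ≠ sQ j := by
  unfold sP sQ; simp

theorem sP_inj {i j : ZMod n} : sP i = sP j ↔ i = j := by unfold sP; simp
theorem sQ_inj {i j : ZMod n} : sQ i = sQ j ↔ i = j := by unfold sQ; simp

theorem tr_P (i : ZMod n) (l : Lt J) (b : St n) : (sP i, l, b) ∈ (ring n J).trans ↔
    (l = lx ∧ b = sP (i + 1)) ∨ (l = ly ∧ b = sP i) ∨ (l = lc ∧ b = sP i) ∨
    (i = 0 ∧ l = lc ∧ b = sQ 0) := by
  rw [ring_mem]
  simp [sP, sQ, sS]

theorem tr_Q (i : ZMod n) (l : Lt J) (b : St n) : (sQ i, l, b) ∈ (ring n J).trans ↔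
    (l = lx ∧ b = sQ i) ∨ (l = ly ∧ b = sQ (i + 1)) ∨ (l = lc ∧ b = sQ i) ∨
    (l = lz ∧ b = sQ i) := by
  rw [ring_mem]
  simp [sP, sQ, sS]

theorem tr_F (l : Lt J) (b : St n) : (sF, l, b) ∉ (ring n J).trans := by
  rw [ring_mem]
  simp [sP, sQ, sS, sF]

theorem tr_S (l : Lt J) (b : St n) : (sS, l, b) ∈ (ring n J).trans ↔
    (sP 0, l, b) ∈ (ring n J).trans ∨ (l = le 0 ∧ b = sF) := by
  rw [tr_P, ring_mem]
  simp [sP, sQ, sS]
  tauto

theorem path_P_x (a : ℕ) : ∀ (i : ZMod n) (w : List (Lt J)) (b : St n),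
    (ring n J).Path (sP i) (List.replicate a lx ++ w) b ↔ (ring n J).Path (sP (i + a)) w b := by
  induction a with
  | zero => intro i w b; simp
  | succ a ih =>
    intro i w b
    rw [List.replicate_succ, List.cons_append, path_cons_iff]
    simp only [tr_P, lx, ly, lc]
    constructor
    · rintro ⟨q, (⟨_, rfl⟩ | ⟨h, _⟩ | ⟨h, _⟩ | ⟨_, h, _⟩), h2⟩
      · have := (ih (i + 1) w b).1 h2
        have e : i + 1 + (a : ZMod n) = i + ((a + 1 : ℕ) : ZMod n) := by push_cast; ring
        rwa [e] at this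
      all_goals exact absurd h (by simp)
    · intro h
      refine ⟨_, Or.inl ⟨trivial, rfl⟩, ?_⟩
      apply (ih (i + 1) w b).2
      have e : i + 1 + (a : ZMod n) = i + ((a + 1 : ℕ) : ZMod n) := by push_cast; ring
      rw [e]; exact h

theorem path_P_y (a : ℕ) : ∀ (i : ZMod n) (w : List (Lt J)) (b : St n),
    (ring n J).Path (sP i) (List.replicate a ly ++ w) b ↔ (ring n J).Path (sP i) w b := by
  induction a with
  | zero => intro i w b; simp
  | succ a ih =>
    intro i w b
    rw [List.replicate_succ, List.cons_append, path_cons_iff]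
    simp only [tr_P, lx, ly, lc]
    constructor
    · rintro ⟨q, (⟨h, _⟩ | ⟨_, rfl⟩ | ⟨h, _⟩ | ⟨_, h, _⟩), h2⟩
      · exact absurd h (by simp)
      · exact (ih i w b).1 h2
      all_goals exact absurd h (by simp)
    · intro h
      exact ⟨_, Or.inr (Or.inl ⟨trivial, rfl⟩), (ih i w b).2 h⟩

theorem path_Q_x (a : ℕ) : ∀ (i : ZMod n) (w : List (Lt J)) (b : St n),
    (ring n J).Path (sQ i) (List.replicate a lx ++ w) b ↔ (ring n J).Path (sQ i) w b := by
  induction a with
  | zero => intro i w b; simp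
  | succ a ih =>
    intro i w b
    rw [List.replicate_succ, List.cons_append, path_cons_iff]
    simp only [tr_Q, lx, ly, lc, lz]
    constructor
    · rintro ⟨q, (⟨_, rfl⟩ | ⟨h, _⟩ | ⟨h, _⟩ | ⟨h, _⟩), h2⟩
      · exact (ih i w b).1 h2
      all_goals exact absurd h (by simp)
    · intro h
      exact ⟨_, Or.inl ⟨trivial, rfl⟩, (ih i w b).2 h⟩

theorem path_Q_y (a : ℕ) : ∀ (i : ZMod n) (w : List (Lt J)) (b : St n),
    (ring n J).Path (sQ i) (List.replicate a ly ++ w) b ↔ (ring n J).Path (sQ (i + a)) w b := by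
  induction a with
  | zero => intro i w b; simp
  | succ a ih =>
    intro i w b
    rw [List.replicate_succ, List.cons_append, path_cons_iff]
    simp only [tr_Q, lx, ly, lc, lz]
    constructor
    · rintro ⟨q, (⟨h, _⟩ | ⟨_, rfl⟩ | ⟨h, _⟩ | ⟨h, _⟩), h2⟩
      · exact absurd h (by simp)
      · have := (ih (i + 1) w b).1 h2
        have e : i + 1 + (a : ZMod n) = i + ((a + 1 : ℕ) : ZMod n) := by push_cast; ring
        rwa [e] at this
      all_goals exact absurd h (by simp)
    · intro h
      refine ⟨_, Or.inr (Or.inl ⟨trivial, rfl⟩), ?_⟩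
      apply (ih (i + 1) w b).2
      have e : i + 1 + (a : ZMod n) = i + ((a + 1 : ℕ) : ZMod n) := by push_cast; ring
      rw [e]; exact h

theorem path_P_c (i : ZMod n) (w : List (Lt J)) (b : St n) :
    (ring n J).Path (sP i) (lc :: w) b ↔
      (ring n J).Path (sP i) w b ∨ (i = 0 ∧ (ring n J).Path (sQ 0) w b) := by
  rw [path_cons_iff]
  simp only [tr_P, lx, ly, lc]
  constructor
  · rintro ⟨q, (⟨h, _⟩ | ⟨h, _⟩ | ⟨_, rfl⟩ | ⟨hi, _, rfl⟩), h2⟩
    · exact absurd h (by simp)
    · exact absurd h (by simp)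
    · exact Or.inl h2
    · exact Or.inr ⟨hi, h2⟩
  · rintro (h | ⟨hi, h⟩)
    · exact ⟨_, Or.inr (Or.inr (Or.inl ⟨trivial, rfl⟩)), h⟩
    · exact ⟨_, Or.inr (Or.inr (Or.inr ⟨hi, trivial, rfl⟩)), h⟩

theorem path_Q_c (i : ZMod n) (w : List (Lt J)) (b : St n) :
    (ring n J).Path (sQ i) (lc :: w) b ↔ (ring n J).Path (sQ i) w b := by
  rw [path_cons_iff]
  simp only [tr_Q, lx, ly, lc, lz]
  constructor
  · rintro ⟨q, (⟨h, _⟩ | ⟨h, _⟩ | ⟨_, rfl⟩ | ⟨h, _⟩), h2⟩
    · exact absurd h (by simp)
    · exact absurd h (by simp)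
    · exact h2
    · exact absurd h (by simp)
  · intro h
    exact ⟨_, Or.inr (Or.inr (Or.inl ⟨trivial, rfl⟩)), h⟩

theorem path_P_z (i : ZMod n) (w : List (Lt J)) (b : St n) :
    ¬ (ring n J).Path (sP i) (lz :: w) b := by
  rw [path_cons_iff]
  simp only [tr_P, lx, ly, lc, lz]
  rintro ⟨q, (⟨h, _⟩ | ⟨h, _⟩ | ⟨h, _⟩ | ⟨_, h, _⟩), h2⟩
  all_goals exact absurd h (by simp)

theorem path_Q_z (i : ZMod n) (w : List (Lt J)) (b : St n) :
    (ring n J).Path (sQ i) (lz :: w) b ↔ (ring n J).Path (sQ i) w b := by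
  rw [path_cons_iff]
  simp only [tr_Q, lx, ly, lc, lz]
  constructor
  · rintro ⟨q, (⟨h, _⟩ | ⟨h, _⟩ | ⟨h, _⟩ | ⟨_, rfl⟩), h2⟩
    · exact absurd h (by simp)
    · exact absurd h (by simp)
    · exact absurd h (by simp)
    · exact h2
  · intro h
    exact ⟨_, Or.inr (Or.inr (Or.inr ⟨trivial, rfl⟩)), h⟩

/-- The word adding the pair `(u, v)` to the relation. -/
def bw (J : ℕ) (r : ZMod n × ZMod n) : List (Lt J) :=
  List.replicate (-r.1).val lx ++ (List.replicate (-r.2).val ly ++ (lc ::
    (List.replicate r.1.val lx ++ List.replicate r.2.val ly)))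

theorem path_P_bw (i : ZMod n) (r : ZMod n × ZMod n) (w : List (Lt J)) (b : St n) :
    (ring n J).Path (sP i) (bw J r ++ w) b ↔
      (ring n J).Path (sP i) w b ∨ (i = r.1 ∧ (ring n J).Path (sQ r.2) w b) := by
  unfold bw
  simp only [List.append_assoc, List.cons_append, path_P_x, path_P_y, path_P_c, path_Q_x,
    path_Q_y, ZMod.natCast_val, ZMod.cast_id', id_eq]
  have e1 : i + -r.1 + r.1 = i := by ring
  have e2 : (i + -r.1 = 0) ↔ i = r.1 := by rw [← sub_eq_add_neg, sub_eq_zero]
  rw [e1, e2, zero_add]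

theorem path_Q_bw (i : ZMod n) (r : ZMod n × ZMod n) (w : List (Lt J)) (b : St n) :
    (ring n J).Path (sQ i) (bw J r ++ w) b ↔ (ring n J).Path (sQ i) w b := by
  unfold bw
  simp only [List.append_assoc, List.cons_append, path_Q_x, path_Q_y, path_Q_c,
    ZMod.natCast_val, ZMod.cast_id', id_eq]
  have e1 : i + -r.2 + r.2 = i := by ring
  rw [e1]

theorem path_Q_bws (l : List (ZMod n × ZMod n)) (i : ZMod n) (w : List (Lt J)) (b : St n) :
    (ring n J).Path (sQ i) (l.flatMap (bw J) ++ w) b ↔ (ring n J).Path (sQ i) w b := by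
  induction l with
  | nil => simp
  | cons r l ih => rw [List.flatMap_cons, List.append_assoc, path_Q_bw, ih]

theorem path_P_bws (l : List (ZMod n × ZMod n)) (i : ZMod n) (w : List (Lt J)) (b : St n) :
    (ring n J).Path (sP i) (l.flatMap (bw J) ++ w) b ↔
      (ring n J).Path (sP i) w b ∨ ∃ v, (i, v) ∈ l ∧ (ring n J).Path (sQ v) w b := by
  induction l with
  | nil => simp
  | cons r l ih =>
    rw [List.flatMap_cons, List.append_assoc, path_P_bw, ih, path_Q_bws]
    constructor
    · rintro ((h | ⟨v, hv, h⟩) | ⟨h1, h2⟩)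
      · exact Or.inl h
      · exact Or.inr ⟨v, List.mem_cons_of_mem _ hv, h⟩
      · refine Or.inr ⟨r.2, ?_, h2⟩
        rw [h1]; exact List.mem_cons_self
    · rintro (h | ⟨v, hv, h⟩)
      · exact Or.inl (Or.inl h)
      · rcases List.mem_cons.1 hv with hv | hv
        · right
          rw [← hv]
          exact ⟨rfl, h⟩
        · exact Or.inl (Or.inr ⟨v, hv, h⟩)

/-- The word whose effect is the relation `l` from the first ring to the second. -/
def relWord (J : ℕ) (l : List (ZMod n × ZMod n)) : List (Lt J) := l.flatMap (bw J) ++ [lz]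

theorem path_P_rel (l : List (ZMod n × ZMod n)) (i : ZMod n) (w : List (Lt J)) (b : St n) :
    (ring n J).Path (sP i) (relWord J l ++ w) b ↔
      ∃ v, (i, v) ∈ l ∧ (ring n J).Path (sQ v) w b := by
  unfold relWord
  rw [List.append_assoc, path_P_bws]
  simp only [List.cons_append, List.nil_append, path_Q_z, path_P_z, false_or]

theorem path_P_xy (a : ℕ) : ∀ (i : ZMod n) (w : List (Lt J)) (b : St n),
    (ring n J).Path (sP i) ((List.replicate a [lx, ly]).flatten ++ w) b ↔
      (ring n J).Path (sP (i + a)) w b := by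
  induction a with
  | zero => intro i w b; simp
  | succ a ih =>
    intro i w b
    have h1 := path_P_x (n := n) (J := J) 1 i (ly :: ((List.replicate a [lx, ly]).flatten ++ w)) b
    have h2 := path_P_y (n := n) (J := J) 1 (i + 1) ((List.replicate a [lx, ly]).flatten ++ w) b
    simp only [List.replicate_one, List.cons_append, List.nil_append, Nat.cast_one] at h1 h2
    rw [List.replicate_succ, List.flatten_cons, List.append_assoc, List.cons_append,
      List.cons_append, List.nil_append, h1, h2, ih]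
    have e : i + 1 + (a : ZMod n) = i + ((a + 1 : ℕ) : ZMod n) := by push_cast; ring
    rw [e]

theorem path_Q_xy (a : ℕ) : ∀ (i : ZMod n) (w : List (Lt J)) (b : St n),
    (ring n J).Path (sQ i) ((List.replicate a [lx, ly]).flatten ++ w) b ↔
      (ring n J).Path (sQ (i + a)) w b := by
  induction a with
  | zero => intro i w b; simp
  | succ a ih =>
    intro i w b
    have h1 := path_Q_x (n := n) (J := J) 1 i (ly :: ((List.replicate a [lx, ly]).flatten ++ w)) b
    have h2 := path_Q_y (n := n) (J := J) 1 i ((List.replicate a [lx, ly]).flatten ++ w) b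
    simp only [List.replicate_one, List.cons_append, List.nil_append, Nat.cast_one] at h1 h2
    rw [List.replicate_succ, List.flatten_cons, List.append_assoc, List.cons_append,
      List.cons_append, List.nil_append, h1, h2, ih]
    have e : i + 1 + (a : ZMod n) = i + ((a + 1 : ℕ) : ZMod n) := by push_cast; ring
    rw [e]

/-- A letter of the first kind. -/
def isInl (l : Lt J) : Prop := ∃ a, l = Sum.inl a

theorem path_S_iff (l : Lt J) (hl : isInl l) (w : List (Lt J)) (b : St n) :
    (ring n J).Path sS (l :: w) b ↔ (ring n J).Path (sP 0) (l :: w) b := by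
  rw [path_cons_iff, path_cons_iff]
  obtain ⟨a, rfl⟩ := hl
  simp only [tr_S]
  constructor
  · rintro ⟨q, (h | ⟨h, _⟩), h2⟩
    · exact ⟨q, h, h2⟩
    · exact absurd h (by simp [le])
  · rintro ⟨q, h, h2⟩
    exact ⟨q, Or.inl h, h2⟩

theorem path_inl {x y : St n} {w : List (Lt J)} (h : (ring n J).Path x w y) :
    x ≠ sS → (∀ l ∈ w, isInl l) := by
  induction h with
  | nil x => intro _ l hl; simp at hl
  | @cons x a q w r h1 h2 ih =>
    intro hx l hl
    have hcase : isInl a ∧ q ≠ sS := by
      rw [ring_mem] at h1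
      rcases h1 with ⟨i, _, rfl, rfl⟩ | ⟨i, _, rfl, rfl⟩ | ⟨i, _, rfl, rfl⟩ | ⟨i, _, rfl, rfl⟩ |
        ⟨i, _, rfl, rfl⟩ | ⟨i, _, rfl, rfl⟩ | ⟨i, _, rfl, rfl⟩ | ⟨_, rfl, rfl⟩ | ⟨h, _, _⟩ |
        ⟨h, _, _⟩ | ⟨h, _, _⟩ | ⟨h, _, _⟩ | ⟨h, _, _⟩
      all_goals first
        | exact ⟨⟨_, rfl⟩, by simp [sP, sQ, sS]⟩
        | exact absurd h hx
    rcases List.mem_cons.1 hl with h3 | h3
    · rw [h3]; exact hcase.1
    · exact ih hcase.2 l h3

theorem ring_words (w : List (Lt J)) (hw : w ∈ (ring n J).lang) :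
    w = [le 0] ∨ ∀ l ∈ w, isInl l := by
  obtain ⟨g, hg, h⟩ := hw
  cases w with
  | nil => right; intro l hl; simp at hl
  | cons a w =>
    obtain ⟨q, h1, h2⟩ := path_cons_iff.1 h
    change (sS, a, q) ∈ (ring n J).trans at h1
    rw [tr_S] at h1
    rcases h1 with h1 | ⟨rfl, rfl⟩
    · right
      have h3 : (ring n J).Path (sP 0) (a :: w) g := TNFA.Path.cons h1 h2
      exact path_inl h3 (by simp [sP, sS])
    · left
      cases w with
      | nil => rfl
      | cons b w =>
        obtain ⟨q, h3, _⟩ := path_cons_iff.1 h2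
        exact absurd h3 (tr_F _ _)

/-- The padded language. -/
def padLang (n J : ℕ) [NeZero n] [NeZero J] (r : ℕ) : Language (Lt J) :=
  {w | w ∈ (ring n J).lang ∨ ∃ i : Fin J, 1 ≤ i.val ∧ i.val ≤ r ∧ w = [le i]}

theorem le_inj {i j : Fin J} : (le i : Lt J) = le j ↔ i = j := by unfold le; simp

theorem not_isInl_le (i : Fin J) : ¬ isInl (le i : Lt J) := by
  rintro ⟨a, h⟩; simp [le] at h

theorem padLang_props (r : ℕ) (hr : r < J) :
    Rec (padLang n J r) ∧ tc (padLang n J r) = tc (ring n J).lang + r := by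
  induction r with
  | zero =>
    have h : padLang n J 0 = (ring n J).lang := by
      ext w
      constructor
      · rintro (h | ⟨i, h1, h2, _⟩)
        · exact h
        · omega
      · intro h; exact Or.inl h
    rw [h]
    exact ⟨⟨St n, inferInstance, ring n J, rfl⟩, rfl⟩
  | succ r ih =>
    obtain ⟨h1, h2⟩ := ih (by omega)
    have h0 : (0 : Fin J).val = 0 := Fin.val_zero J
    have key := tc_pad (padLang n J r) h1 (le 0) (le ⟨r + 1, hr⟩)
      (by
        left
        refine ⟨sF, by right; rfl, TNFA.Path.cons ?_ (TNFA.Path.nil _)⟩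
        show (sS, le 0, sF) ∈ (ring n J).trans
        rw [tr_S]
        exact Or.inr ⟨rfl, rfl⟩)
      (by
        rintro w (hw | ⟨i, hi1, hi2, rfl⟩) hmem
        · rcases ring_words w hw with h | h
          · exact h
          · exact absurd (h _ hmem) (not_isInl_le _)
        · rw [List.mem_singleton, le_inj] at hmem
          rw [← hmem] at hi1
          omega)
      (by
        rintro w (hw | ⟨i, hi1, hi2, rfl⟩) hmem
        · rcases ring_words w hw with h | h
          · rw [h, List.mem_singleton, le_inj] at hmem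
            have := congrArg Fin.val hmem
            simp only [h0] at this
            omega
          · exact absurd (h _ hmem) (not_isInl_le _)
        · rw [List.mem_singleton, le_inj] at hmem
          rw [← hmem] at hi2
          simp only at hi2
          omega)
    have heq : (padLang n J r ∪ {[le ⟨r + 1, hr⟩]} : Set (List (Lt J))) = padLang n J (r + 1) := by
      ext w
      constructor
      · rintro ((h | ⟨i, h1, h2, h3⟩) | h)
        · exact Or.inl h
        · exact Or.inr ⟨i, h1, by omega, h3⟩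
        · exact Or.inr ⟨⟨r + 1, hr⟩, by simp, by simp, h⟩
      · rintro (h | ⟨i, h1, h2, h3⟩)
        · exact Or.inl (Or.inl h)
        · by_cases hi : i.val ≤ r
          · exact Or.inl (Or.inr ⟨i, h1, hi, h3⟩)
          · right
            have : i = ⟨r + 1, hr⟩ := Fin.ext (by simp only; omega)
            rw [← this]
            exact h3
    rw [heq] at key
    refine ⟨key.1, ?_⟩
    rw [key.2, h2]
    ring

theorem flatMap_replicate' {Γ σ : Type} (h : Γ → List σ) (a : ℕ) (c : Γ) :
    (List.replicate a c).flatMap h = (List.replicate a (h c)).flatten := by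
  induction a with
  | zero => simp
  | succ a ih => rw [List.replicate_succ, List.flatMap_cons, ih, List.replicate_succ,
      List.flatten_cons]

theorem isInl_bw (r : ZMod n × ZMod n) : ∀ l ∈ bw J r, isInl l := by
  intro l hl
  unfold bw at hl
  simp only [List.mem_append, List.mem_cons, List.mem_replicate] at hl
  rcases hl with ⟨_, rfl⟩ | ⟨_, rfl⟩ | rfl | ⟨_, rfl⟩ | ⟨_, rfl⟩
  all_goals exact ⟨_, rfl⟩

theorem isInl_rel (L : List (ZMod n × ZMod n)) : ∀ l ∈ relWord J L, isInl l := by
  intro l hl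
  unfold relWord at hl
  simp only [List.mem_append, List.mem_flatMap, List.mem_singleton] at hl
  rcases hl with ⟨r, _, hr⟩ | rfl
  · exact isInl_bw r l hr
  · exact ⟨_, rfl⟩

theorem isInl_xy (a : ℕ) : ∀ l ∈ (List.replicate a ([lx, ly] : List (Lt J))).flatten, isInl l := by
  intro l hl
  rw [List.mem_flatten] at hl
  obtain ⟨s, hs, hl⟩ := hl
  rw [List.mem_replicate] at hs
  rw [hs.2] at hl
  simp only [List.mem_cons, List.not_mem_nil, or_false] at hl
  rcases hl with rfl | rfl
  all_goals exact ⟨_, rfl⟩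

/-- The morphism encoding a relation. -/
noncomputable def mor (k n J : ℕ) [NeZero n] (R : Finset (ZMod n × ZMod n)) : Fin k → List (Lt J) := fun i =>
  if i.val = 0 then [lx, ly] else if i.val = 1 then relWord J R.toList else []

theorem encode (k : ℕ) (hk : 2 ≤ k) (r : ℕ) (R : Finset (ZMod n × ZMod n)) (u v : ZMod n) :
    (List.replicate u.val (⟨0, by omega⟩ : Fin k) ++ ([⟨1, by omega⟩] ++
      List.replicate (-v).val (⟨0, by omega⟩ : Fin k))) ∈
      inverseImage (mor k n J R) (padLang n J r) ↔ (u, v) ∈ R := by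
  set W := (List.replicate u.val ([lx, ly] : List (Lt J))).flatten ++ (relWord J R.toList ++
    (List.replicate (-v).val ([lx, ly] : List (Lt J))).flatten) with hW
  have hflat : (List.replicate u.val (⟨0, by omega⟩ : Fin k) ++
      (([⟨1, by omega⟩] : List (Fin k)) ++
      List.replicate (-v).val (⟨0, by omega⟩ : Fin k))).flatMap (mor k n J R) = W := by
    rw [List.flatMap_append, List.flatMap_append, flatMap_replicate', flatMap_replicate']
    simp only [mor, List.flatMap_cons, List.flatMap_nil, List.append_nil, if_true]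
    rfl
  show _ ∈ padLang n J r ↔ _
  rw [hflat]
  have hinl : ∀ l ∈ W, isInl l := by
    intro l hl
    rw [hW, List.mem_append, List.mem_append] at hl
    rcases hl with hl | hl | hl
    · exact isInl_xy _ l hl
    · exact isInl_rel _ l hl
    · exact isInl_xy _ l hl
  have hne : W ≠ [] := by
    intro h
    have : (lz : Lt J) ∈ W := by
      rw [hW]
      unfold relWord
      simp
    rw [h] at this
    simp at this
  have hpath : ∀ g, (ring n J).Path sS W g ↔ (ring n J).Path (sP 0) W g := by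
    intro g
    cases hWc : W with
    | nil => exact absurd hWc hne
    | cons l W' =>
      apply path_S_iff
      apply hinl
      rw [hWc]
      exact List.mem_cons_self
  have hval : ∀ a : ZMod n, ((a.val : ℕ) : ZMod n) = a := by
    intro a; simp
  have hmain : ∀ g, (ring n J).Path (sP 0) W g ↔ ∃ v', (u, v') ∈ R ∧ g = sQ (v' + -v) := by
    intro g
    rw [hW, path_P_xy, path_P_rel, hval, zero_add]
    constructor
    · rintro ⟨v', h1, h2⟩
      have h3 := (path_Q_xy (n := n) (J := J) (-v).val v' [] g).1 (by simpa using h2)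
      rw [path_nil_iff, hval] at h3
      exact ⟨v', Finset.mem_toList.1 h1, h3.symm⟩
    · rintro ⟨v', h1, h2⟩
      refine ⟨v', Finset.mem_toList.2 h1, ?_⟩
      have h3 := (path_Q_xy (n := n) (J := J) (-v).val v' [] g).2 (by
        rw [path_nil_iff, hval]; exact h2.symm)
      simpa using h3
  constructor
  · rintro (⟨g, hg, h⟩ | ⟨i, _, _, h⟩)
    · have h1 := (hmain g).1 ((hpath g).1 h)
      obtain ⟨v', hv', rfl⟩ := h1
      rcases hg with hg | hg
      · rw [sQ_inj] at hg
        have : v' = v := by rwa [← sub_eq_add_neg, sub_eq_zero] at hg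
        rw [← this]; exact hv'
      · have hg' : (sQ (v' + -v) : St n) = sF := hg
        simp [sQ, sF] at hg'
    · exfalso
      have := hinl (le i) (by rw [h]; simp)
      exact not_isInl_le i this
  · intro h
    left
    refine ⟨sQ 0, Or.inl rfl, (hpath _).2 ((hmain _).2 ⟨v, h, ?_⟩)⟩
    rw [add_neg_cancel]

end ring

section final

/-- A language of transition complexity exactly `m`. -/
theorem tc_letters (m : ℕ) : ∃ L : Language (Fin m), L.IsRegular ∧ tc L = m := by
  classical
  let A : TNFA (Fin m) Bool :=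
    { start := true
      accept := {false}
      trans := Finset.univ.image (fun i : Fin m => (true, i, false)) }
  have htr : ∀ p i q, (p, i, q) ∈ A.trans ↔ p = true ∧ q = false := by
    intro p i q
    simp only [A, Finset.mem_image, Finset.mem_univ, true_and, Prod.mk.injEq]
    constructor
    · rintro ⟨j, rfl, rfl, rfl⟩; exact ⟨rfl, rfl⟩
    · rintro ⟨rfl, rfl⟩; exact ⟨i, rfl, rfl, rfl⟩
  have hlang : ∀ w, w ∈ A.lang ↔ ∃ i, w = [i] := by
    intro w
    constructor
    · rintro ⟨f, hf, h⟩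
      have hf' : f = false := hf
      subst hf'
      cases w with
      | nil => rw [path_nil_iff] at h; exact absurd h (by simp [A])
      | cons i w =>
        obtain ⟨q, h1, h2⟩ := path_cons_iff.1 h
        obtain ⟨_, rfl⟩ := (htr _ _ _).1 h1
        cases w with
        | nil => exact ⟨i, rfl⟩
        | cons j w =>
          obtain ⟨q, h3, _⟩ := path_cons_iff.1 h2
          exact absurd ((htr _ _ _).1 h3).1 (by simp)
    · rintro ⟨i, rfl⟩
      exact ⟨false, rfl, TNFA.Path.cons ((htr _ _ _).2 ⟨rfl, rfl⟩) (TNFA.Path.nil _)⟩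
  have hrec : Rec A.lang := ⟨Bool, inferInstance, A, rfl⟩
  refine ⟨A.lang, isRegular_of_rec hrec, le_antisymm ?_ ?_⟩
  · refine (tc_le A).trans ((Finset.card_image_le).trans ?_)
    simp
  · obtain ⟨Q, hQ, B, hB, hcard⟩ := exists_tc hrec
    rw [← hcard]
    have h1 : ∀ i : Fin m, ∃ q, (B.start, i, q) ∈ B.trans := by
      intro i
      have h2 : [i] ∈ B.lang := by rw [hB, hlang]; exact ⟨i, rfl⟩
      obtain ⟨f, _, h3⟩ := h2
      obtain ⟨q, h4, _⟩ := path_cons_iff.1 h3
      exact ⟨q, h4⟩
    choose q hq using h1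
    have h2 := Finset.card_le_card_of_injOn (s := (Finset.univ : Finset (Fin m)))
      (t := B.trans) (fun i => (B.start, i, q i)) (fun i _ => hq i) (by
        intro i _ j _ hij
        exact congrArg (fun x => x.2.1) hij)
    simpa using h2

theorem gValues_nonempty (k m : ℕ) : (gValues k m).Nonempty := by
  obtain ⟨L, hL, htc⟩ := tc_letters m
  exact ⟨_, Fin k, Fin m, inferInstance, inferInstance, fun _ => [], L, Fintype.card_fin k, hL,
    htc, rfl⟩

theorem g_values_le (k m t : ℕ) (ht : ∃ (Γ σ : Type) (_ : Fintype Γ) (_ : Fintype σ)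
    (h : Γ → List σ) (L : Language σ),
    Fintype.card Γ = k ∧ L.IsRegular ∧ tc L = m ∧ t = tc (inverseImage h L)) :
    t ≤ ((m + 1) / 1 + 1) * k * (2 ^ 1 * 1 + k * (m + 1)) := by
  obtain ⟨Γ, σ, _, _, h, L, hk, hL, hm, rfl⟩ := ht
  have := tc_inverseImage_le (rec_of_isRegular hL) h 1 le_rfl
  rwa [hm, hk] at this

theorem g_bdd (k m : ℕ) : BddAbove (gValues k m) :=
  ⟨_, fun t ht => g_values_le k m t ht⟩

theorem g_upper (k m : ℕ) (hm : 2 ≤ m) :
    (g k m : ℝ) ≤ 9 * k * (k + 2) * (m : ℝ) ^ 2 / Real.log m := by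
  have hlog : 0 ≤ Real.log m := Real.log_natCast_nonneg m
  have hnn : 0 ≤ 9 * (k : ℝ) * (k + 2) * (m : ℝ) ^ 2 / Real.log m := by positivity
  have key : g k m ≤ ⌊9 * (k : ℝ) * (k + 2) * (m : ℝ) ^ 2 / Real.log m⌋₊ := by
    unfold g
    rcases Set.eq_empty_or_nonempty (gValues k m) with he | hne
    · rw [he]; simp
    · apply csSup_le hne
      rintro t ⟨Γ, σ, _, _, h, L, hk, hL, hm', rfl⟩
      apply Nat.le_floor
      have := tc_inverseImage_real (rec_of_isRegular hL) h (by rw [hm']; exact hm)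
      rwa [hm', hk] at this
  exact (Nat.le_floor_iff hnn).1 key

theorem g_count (k n m : ℕ) (hk : 2 ≤ k) (hn : 1 ≤ n) (hm : 7 * n + 6 ≤ m) :
    2 ^ (n * n) ≤ (g k m + 1) * (2 ^ (g k m + 1) *
      ((g k m + 1) * (k * (g k m + 1)) + 1) ^ (g k m)) := by
  classical
  have : NeZero n := ⟨by omega⟩
  have : NeZero (m + 2) := ⟨by omega⟩
  set J := m + 2 with hJ
  have h1 : tc (ring n J).lang ≤ m := (tc_le _).trans (ring_card.trans hm)
  set r := m - tc (ring n J).lang with hr
  obtain ⟨hrec, htc⟩ := padLang_props (n := n) (J := J) r (by omega)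
  have htc' : tc (padLang n J r) = m := by omega
  have hcount := count_bound (Γ := Fin k) (ι := Finset (ZMod n × ZMod n)) (g k m)
    (fun R => inverseImage (mor k n J R) (padLang n J r)) (by
      intro R R' hRR
      ext ⟨u, v⟩
      have e1 := encode (n := n) (J := J) k hk r R u v
      have e2 := encode (n := n) (J := J) k hk r R' u v
      have hRR' : inverseImage (mor k n J R) (padLang n J r) =
        inverseImage (mor k n J R') (padLang n J r) := hRR
      rw [← e1, ← e2, hRR'])
    (fun R => rec_inverseImage hrec _)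
    (fun R => by
      apply le_csSup (g_bdd k m)
      exact ⟨Fin k, Lt J, inferInstance, inferInstance, mor k n J R, padLang n J r,
        Fintype.card_fin k, isRegular_of_rec hrec, htc', rfl⟩)
  rw [Fintype.card_finset, Fintype.card_prod, ZMod.card, Fintype.card_fin] at hcount
  exact hcount

set_option maxHeartbeats 2000000 in
theorem g_lower (k : ℕ) (hk : 2 ≤ k) :
    ∃ c : ℝ, 0 < c ∧ ∃ m₀ : ℕ, ∀ m : ℕ, m₀ ≤ m → c * ((m : ℝ) ^ 2 / Real.log m) ≤ g k m := by
  set C1 : ℝ := Real.log (4 * k) / Real.log 2 + 6 with hC1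
  have hk' : (2 : ℝ) ≤ k := by exact_mod_cast hk
  have hlog2 : 0 < Real.log 2 := Real.log_pos (by norm_num)
  have hlog2' : Real.log 2 < 1 := by linarith [Real.log_two_lt_d9]
  have hlog4k : 0 < Real.log (4 * k) := Real.log_pos (by linarith)
  have hC1pos : 6 < C1 := by
    have : 0 < Real.log (4 * k) / Real.log 2 := div_pos hlog4k hlog2
    linarith
  set c' : ℝ := Real.log 2 / (196 * C1) with hc'
  have hc'pos : 0 < c' := by positivity
  have hc'1 : c' < 1 := by
    rw [hc', div_lt_one (by positivity)]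
    nlinarith
  obtain ⟨M, hM⟩ := exists_nat_ge (2 / c')
  refine ⟨c' / 2, by positivity, max 24 M, fun m hm => ?_⟩
  have hm24 : 24 ≤ m := (le_max_left _ _).trans hm
  have hmM : M ≤ m := (le_max_right _ _).trans hm
  have hmr : (24 : ℝ) ≤ m := by exact_mod_cast hm24
  have hmpos : (0 : ℝ) < m := by linarith
  have hlogm : 1 ≤ Real.log m := by
    have h1 : Real.exp 1 ≤ m := by linarith [Real.exp_one_lt_d9]
    exact (Real.le_log_iff_exp_le hmpos).2 h1
  have hlogmle : Real.log m ≤ m := (Real.log_le_sub_one_of_pos hmpos).trans (by linarith)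
  set T : ℝ := (g k m : ℝ) + 1 with hT
  have hT1 : 1 ≤ T := by
    have : (0 : ℝ) ≤ g k m := Nat.cast_nonneg _
    linarith
  -- it suffices to bound `T`
  have hsuff : c' * ((m : ℝ) ^ 2 / Real.log m) ≤ T → c' / 2 * ((m : ℝ) ^ 2 / Real.log m) ≤ g k m := by
    intro h
    have h1 : (m : ℝ) ≤ (m : ℝ) ^ 2 / Real.log m := by
      rw [le_div_iff₀ (by linarith)]
      nlinarith
    have h2 : 2 / c' ≤ m := hM.trans (by exact_mod_cast hmM)
    have h3 : 2 ≤ c' * m := by
      rw [div_le_iff₀ hc'pos] at h2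
      linarith
    have h4 : c' * m ≤ c' * ((m : ℝ) ^ 2 / Real.log m) := mul_le_mul_of_nonneg_left h1 hc'pos.le
    linarith
  apply hsuff
  by_cases hbig : (m : ℝ) ^ 2 ≤ T
  · refine le_trans ?_ hbig
    have h1 : (m : ℝ) ^ 2 / Real.log m ≤ (m : ℝ) ^ 2 := div_le_self (by positivity) hlogm
    have h2 : 0 ≤ (m : ℝ) ^ 2 / Real.log m := by positivity
    nlinarith
  · push Not at hbig
    set n := (m - 6) / 7 with hn
    have hn1 : 1 ≤ n := by omega
    have hcount := g_count k n m hk hn1 (by omega)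
    have hcount' : (2 : ℝ) ^ (n * n) ≤ T * (2 ^ (g k m + 1) * ((T * (k * T)) + 1) ^ (g k m)) := by
      have : ((2 ^ (n * n) : ℕ) : ℝ) ≤ (((g k m + 1) * (2 ^ (g k m + 1) *
      ((g k m + 1) * (k * (g k m + 1)) + 1) ^ (g k m)) : ℕ) : ℝ) := by exact_mod_cast hcount
      push_cast at this
      rw [hT]
      exact this
    have hX : (1 : ℝ) ≤ T * (k * T) + 1 := by
      have : 0 ≤ T * (k * T) := by positivity
      linarith
    have hlog := Real.log_le_log (by positivity) hcount'
    rw [Real.log_pow, Real.log_mul (by positivity) (by positivity),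
      Real.log_mul (by positivity) (by positivity), Real.log_pow, Real.log_pow] at hlog
    have hlogT : 0 ≤ Real.log T := Real.log_nonneg hT1
    have hXle : T * (k * T) + 1 ≤ 2 * k * T ^ 2 := by nlinarith
    have hlogX : Real.log (T * (k * T) + 1) ≤ Real.log (2 * k * T ^ 2) :=
      Real.log_le_log (by linarith) hXle
    have hlogX0 : 0 ≤ Real.log (2 * k * T ^ 2) := Real.log_nonneg (by nlinarith)
    have hgT : ((g k m : ℕ) : ℝ) = T - 1 := by rw [hT]; ring
    have hgT1 : ((g k m + 1 : ℕ) : ℝ) = T := by rw [hT]; push_cast; ring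
    rw [hgT, hgT1] at hlog
    have e1 : Real.log T ≤ T * Real.log T := by nlinarith
    have e2 : (T - 1) * Real.log (T * (k * T) + 1) ≤ T * Real.log (2 * k * T ^ 2) := by
      have h1 : (T - 1) * Real.log (T * (k * T) + 1) ≤ (T - 1) * Real.log (2 * k * T ^ 2) :=
        mul_le_mul_of_nonneg_left hlogX (by linarith)
      nlinarith
    have e3 : Real.log (2 * k * T ^ 2) = Real.log (4 * k) - Real.log 2 + 2 * Real.log T := by
      have h1 : (2 : ℝ) * k * T ^ 2 = (4 * k) / 2 * T ^ 2 := by ring
      rw [h1, Real.log_mul (by positivity) (by positivity), Real.log_div (by positivity) (by norm_num),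
        Real.log_pow]
      push_cast; ring
    have e4 : ((n * n : ℕ) : ℝ) * Real.log 2 ≤ T * (Real.log (4 * k) + 3 * Real.log T) := by
      rw [e3] at e2
      nlinarith
    have e5 : Real.log T ≤ 2 * Real.log m := by
      have h1 : Real.log T ≤ Real.log ((m : ℝ) ^ 2) := Real.log_le_log (by linarith) hbig.le
      rw [Real.log_pow] at h1
      push_cast at h1
      exact h1
    have e6 : Real.log (4 * k) ≤ Real.log (4 * k) / Real.log 2 * Real.log m := by
      have h1 : Real.log 2 ≤ Real.log m := by linarith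
      rw [div_mul_eq_mul_div, le_div_iff₀ hlog2]
      exact mul_le_mul_of_nonneg_left h1 hlog4k.le
    have e7 : Real.log (4 * k) + 3 * Real.log T ≤ C1 * Real.log m := by
      rw [hC1, add_mul]
      linarith
    have e8 : ((n * n : ℕ) : ℝ) * Real.log 2 ≤ T * (C1 * Real.log m) :=
      e4.trans (mul_le_mul_of_nonneg_left e7 (by linarith))
    have e9 : (m : ℝ) / 14 ≤ n := by
      have h1 : m ≤ 14 * n := by omega
      have h2 : (m : ℝ) ≤ 14 * n := by exact_mod_cast h1
      linarith
    have e10 : (m : ℝ) ^ 2 / 196 ≤ ((n * n : ℕ) : ℝ) := by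
      push_cast
      nlinarith
    rw [hc', div_mul_div_comm, div_le_iff₀ (by positivity)]
    have e11 : (m : ℝ) ^ 2 / 196 * Real.log 2 ≤ ((n * n : ℕ) : ℝ) * Real.log 2 :=
      mul_le_mul_of_nonneg_right e10 hlog2.le
    nlinarith

end final

end Pool.Agent.Helper948.Nfa
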