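import Mathlib

set_option autoImplicit false
set_option linter.unusedSectionVars false

open Finset Filter Topology
open scoped Pointwise

namespace Pool.Agent.Helper948.Core

section wsum

variable {α : Type*} [DecidableEq α]

/-- The weight of a random subset of size `r` of a set of size `m`. -/
noncomputable def wt (q : ℝ) (m r : ℕ) : ℝ := q ^ r * (1 - q) ^ (m - r)

/-- Expectation of `g R` where `R` is a random subset of `A`, every element being kept independently
with probability `q`. -/
noncomputable def wsum (q : ℝ) (A : Finset α) (g : Finset α → ℝ) : ℝ :=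
  ∑ R ∈ A.powerset, wt q A.card R.card * g R

theorem wsum_empty (q : ℝ) (g : Finset α → ℝ) : wsum q ∅ g = g ∅ := by
  simp [wsum, wt]

theorem wsum_insert (q : ℝ) {a : α} {A : Finset α} (ha : a ∉ A) (g : Finset α → ℝ) :
    wsum q (insert a A) g = (1 - q) * wsum q A g + q * wsum q A (fun R => g (insert a R)) := by
  unfold wsum
  rw [Finset.sum_powerset_insert ha, Finset.mul_sum, Finset.mul_sum]
  congr 1
  · apply Finset.sum_congr rfl
    intro R hR
    rw [Finset.mem_powerset] at hR
    have h1 : R.card ≤ A.card := Finset.card_le_card hR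
    rw [Finset.card_insert_of_notMem ha]
    unfold wt
    rw [show A.card + 1 - R.card = (A.card - R.card) + 1 by omega, pow_succ]
    ring
  · apply Finset.sum_congr rfl
    intro R hR
    rw [Finset.mem_powerset] at hR
    have h2 : a ∉ R := fun h => ha (hR h)
    rw [Finset.card_insert_of_notMem ha, Finset.card_insert_of_notMem h2]
    unfold wt
    rw [show A.card + 1 - (R.card + 1) = A.card - R.card by omega, pow_succ]
    ring

theorem wsum_congr (q : ℝ) (A : Finset α) {g h : Finset α → ℝ} (H : ∀ R ⊆ A, g R = h R) :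
    wsum q A g = wsum q A h := by
  unfold wsum
  apply Finset.sum_congr rfl
  intro R hR
  rw [H R (Finset.mem_powerset.1 hR)]

theorem wsum_add (q : ℝ) (A : Finset α) (g h : Finset α → ℝ) :
    wsum q A (fun R => g R + h R) = wsum q A g + wsum q A h := by
  unfold wsum
  rw [← Finset.sum_add_distrib]
  apply Finset.sum_congr rfl
  intro R _
  ring

theorem wsum_const_mul (q : ℝ) (A : Finset α) (c : ℝ) (g : Finset α → ℝ) :
    wsum q A (fun R => c * g R) = c * wsum q A g := by
  unfold wsum
  rw [Finset.mul_sum]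
  apply Finset.sum_congr rfl
  intro R _
  ring

theorem wsum_const (q : ℝ) (A : Finset α) (c : ℝ) : wsum q A (fun _ => c) = c := by
  induction A using Finset.induction_on with
  | empty => rw [wsum_empty]
  | insert a A ha ih => rw [wsum_insert q ha, ih]; ring

theorem wt_nonneg {q : ℝ} (h0 : 0 ≤ q) (h1 : q ≤ 1) (m r : ℕ) : 0 ≤ wt q m r := by
  unfold wt
  have : 0 ≤ 1 - q := by linarith
  positivity

theorem wsum_mono {q : ℝ} (h0 : 0 ≤ q) (h1 : q ≤ 1) (A : Finset α) {g h : Finset α → ℝ}
    (H : ∀ R ⊆ A, g R ≤ h R) : wsum q A g ≤ wsum q A h := by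
  unfold wsum
  apply Finset.sum_le_sum
  intro R hR
  exact mul_le_mul_of_nonneg_left (H R (Finset.mem_powerset.1 hR)) (wt_nonneg h0 h1 _ _)

theorem wsum_nonneg {q : ℝ} (h0 : 0 ≤ q) (h1 : q ≤ 1) (A : Finset α) {g : Finset α → ℝ}
    (H : ∀ R ⊆ A, 0 ≤ g R) : 0 ≤ wsum q A g := by
  have := wsum_mono h0 h1 A (g := fun _ => 0) (h := g) H
  rwa [wsum_const] at this

theorem wsum_union (q : ℝ) {A B : Finset α} (hAB : Disjoint A B) (g : Finset α → ℝ) :
    wsum q (A ∪ B) g = wsum q A (fun R => wsum q B (fun S => g (R ∪ S))) := by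
  induction A using Finset.induction_on generalizing g with
  | empty => rw [wsum_empty]; simp
  | insert a A ha ih =>
    rw [Finset.disjoint_insert_left] at hAB
    have h1 : a ∉ A ∪ B := by
      rw [Finset.mem_union]; push Not; exact ⟨ha, hAB.1⟩
    rw [Finset.insert_union, wsum_insert q h1, wsum_insert q ha, ih hAB.2, ih hAB.2]
    simp only [Finset.insert_union]

theorem wsum_image {β : Type*} [DecidableEq β] (q : ℝ) (A : Finset α) {φ : α → β}
    (hφ : Function.Injective φ) (g : Finset β → ℝ) :
    wsum q (A.image φ) g = wsum q A (fun R => g (R.image φ)) := by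
  induction A using Finset.induction_on generalizing g with
  | empty => simp [wsum_empty]
  | insert a A ha ih =>
    have h1 : φ a ∉ A.image φ := by
      intro h
      obtain ⟨b, hb, hb'⟩ := Finset.mem_image.1 h
      exact ha (hφ hb' ▸ hb)
    rw [Finset.image_insert, wsum_insert q h1, wsum_insert q ha, ih, ih]
    simp only [Finset.image_insert]

/-- The expectation of a function of `R ∩ B` where `B ⊆ A`. -/
theorem wsum_inter (q : ℝ) {A B : Finset α} (hB : B ⊆ A) (g : Finset α → ℝ) :
    wsum q A (fun R => g (R ∩ B)) = wsum q B g := by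
  have h1 : A = B ∪ (A \ B) := (Finset.union_sdiff_of_subset hB).symm
  conv_lhs => rw [h1]
  rw [wsum_union q Finset.disjoint_sdiff]
  apply wsum_congr
  intro R hR
  rw [← wsum_const q (A \ B) (g R)]
  apply wsum_congr
  intro S hS
  congr 1
  ext x
  simp only [Finset.mem_inter, Finset.mem_union]
  constructor
  · rintro ⟨h | h, hx⟩
    · exact h
    · exact absurd hx (Finset.mem_sdiff.1 (hS h)).2
  · intro h
    exact ⟨Or.inl h, hR h⟩

/-- Avoiding a set `S`. -/
theorem wsum_disjoint (q : ℝ) (A S : Finset α) (g : Finset α → ℝ) :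
    wsum q A (fun R => if Disjoint R S then g R else 0) =
      (1 - q) ^ (A ∩ S).card * wsum q (A \ S) g := by
  have h1 : A = (A ∩ S) ∪ (A \ S) := by
    ext x; simp only [Finset.mem_union, Finset.mem_inter, Finset.mem_sdiff]; tauto
  have hd : Disjoint (A ∩ S) (A \ S) := by
    rw [Finset.disjoint_left]; intro x hx hx'
    exact (Finset.mem_sdiff.1 hx').2 (Finset.mem_inter.1 hx).2
  conv_lhs => rw [h1]
  rw [wsum_union q hd]
  have key : ∀ B ⊆ S, wsum q B (fun R => wsum q (A \ S) (fun T =>
      if Disjoint (R ∪ T) S then g (R ∪ T) else 0)) =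
      (1 - q) ^ B.card * wsum q (A \ S) g := by
    intro B hB
    have e1 : wsum q B (fun R => wsum q (A \ S) (fun T =>
      if Disjoint (R ∪ T) S then g (R ∪ T) else 0)) =
      wsum q B (fun R => if R = ∅ then wsum q (A \ S) g else 0) := by
      apply wsum_congr
      intro R hR
      by_cases hR0 : R = ∅
      · subst hR0
        simp only [if_true, Finset.empty_union]
        apply wsum_congr
        intro T hT
        have : Disjoint T S := by
          rw [Finset.disjoint_left]; intro x hx
          exact (Finset.mem_sdiff.1 (hT hx)).2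
        rw [if_pos this]
      · rw [if_neg hR0]
        refine Eq.trans (wsum_congr q (A \ S) ?_) (wsum_const q (A \ S) 0)
        intro T hT
        rw [if_neg]
        intro hdis
        obtain ⟨x, hx⟩ := Finset.nonempty_iff_ne_empty.2 hR0
        exact Finset.disjoint_left.1 hdis (Finset.mem_union_left _ hx) (hB (hR hx))
    rw [e1]
    unfold wsum
    rw [Finset.sum_eq_single ∅]
    · simp [wt]
    · intro R _ hR
      simp only [if_neg hR, mul_zero]
    · intro h
      exact absurd (Finset.empty_mem_powerset B) h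
  exact key (A ∩ S) Finset.inter_subset_right

theorem wsum_disjoint_one (q : ℝ) (A S : Finset α) :
    wsum q A (fun R => if Disjoint R S then (1 : ℝ) else 0) = (1 - q) ^ (A ∩ S).card := by
  rw [wsum_disjoint q A S (fun _ => 1), wsum_const, mul_one]

/-- Harris inequality for two antitone functions of a random subset. -/
theorem harris {q : ℝ} (h0 : 0 ≤ q) (h1 : q ≤ 1) (A : Finset α) (g h : Finset α → ℝ)
    (hg : Antitone g) (hh : Antitone h) :
    wsum q A g * wsum q A h ≤ wsum q A (fun R => g R * h R) := by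
  induction A using Finset.induction_on generalizing g h with
  | empty => simp [wsum_empty]
  | insert a A ha ih =>
    rw [wsum_insert q ha, wsum_insert q ha, wsum_insert q ha]
    have hg' : Antitone (fun R => g (insert a R)) := fun R S hRS =>
      hg (Finset.insert_subset_insert a hRS)
    have hh' : Antitone (fun R => h (insert a R)) := fun R S hRS =>
      hh (Finset.insert_subset_insert a hRS)
    have i1 := ih g h hg hh
    have i2 := ih _ _ hg' hh'
    have m1 : wsum q A (fun R => g (insert a R)) ≤ wsum q A g :=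
      wsum_mono h0 h1 A (fun R _ => hg (Finset.subset_insert a R))
    have m2 : wsum q A (fun R => h (insert a R)) ≤ wsum q A h :=
      wsum_mono h0 h1 A (fun R _ => hh (Finset.subset_insert a R))
    set x := wsum q A g
    set y := wsum q A (fun R => g (insert a R))
    set u := wsum q A h
    set w := wsum q A (fun R => h (insert a R))
    have h1q : 0 ≤ 1 - q := by linarith
    have k1 : (1 - q) * (x * u) ≤ (1 - q) * wsum q A (fun R => g R * h R) :=
      mul_le_mul_of_nonneg_left i1 h1q
    have k2 : q * (y * w) ≤ q * wsum q A (fun R => g (insert a R) * h (insert a R)) :=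
      mul_le_mul_of_nonneg_left i2 h0
    have k3 : 0 ≤ q * (1 - q) * ((x - y) * (u - w)) := by
      apply mul_nonneg (mul_nonneg h0 h1q)
      exact mul_nonneg (by linarith) (by linarith)
    nlinarith

/-- The derivative of the weight. -/
noncomputable def dwt (q : ℝ) (m r : ℕ) : ℝ :=
  r * q ^ (r - 1) * (1 - q) ^ (m - r) - (m - r : ℕ) * q ^ r * (1 - q) ^ (m - r - 1)

noncomputable def dwsum (q : ℝ) (A : Finset α) (g : Finset α → ℝ) : ℝ :=
  ∑ R ∈ A.powerset, dwt q A.card R.card * g R

theorem hasDerivAt_wt (q : ℝ) (m r : ℕ) : HasDerivAt (fun x => wt x m r) (dwt q m r) q := by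
  unfold wt dwt
  have h1 : HasDerivAt (fun x : ℝ => x ^ r) (r * q ^ (r - 1)) q := by
    simpa using hasDerivAt_pow r q
  have h2 : HasDerivAt (fun x : ℝ => (1 - x) ^ (m - r)) (-((m - r : ℕ) * (1 - q) ^ (m - r - 1))) q := by
    have h3 : HasDerivAt (fun x : ℝ => 1 - x) (-1) q := by
      simpa using (hasDerivAt_id q).const_sub 1
    have := h3.fun_pow (m - r)
    simpa using this
  have := h1.fun_mul h2
  refine this.congr_deriv ?_
  ring

theorem hasDerivAt_wsum_const (q : ℝ) (A : Finset α) (g : Finset α → ℝ) :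
    HasDerivAt (fun x => wsum x A g) (dwsum q A g) q := by
  unfold wsum dwsum
  apply HasDerivAt.fun_sum
  intro R _
  exact (hasDerivAt_wt q _ _).mul_const _

theorem hasDerivAt_wsum (q : ℝ) (A : Finset α) (g : ℝ → Finset α → ℝ) (g' : Finset α → ℝ)
    (hg : ∀ R, HasDerivAt (fun x => g x R) (g' R) q) :
    HasDerivAt (fun x => wsum x A (g x)) (wsum q A g' + dwsum q A (g q)) q := by
  unfold wsum dwsum
  rw [← Finset.sum_add_distrib]
  apply HasDerivAt.fun_sum
  intro R _
  have := (hasDerivAt_wt q A.card R.card).fun_mul (hg R)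
  refine this.congr_deriv ?_
  ring

theorem dwsum_disjoint_one (q : ℝ) (A S : Finset α) :
    dwsum q A (fun R => if Disjoint R S then (1 : ℝ) else 0) =
      - ((A ∩ S).card * (1 - q) ^ ((A ∩ S).card - 1)) := by
  have h1 := hasDerivAt_wsum_const q A (fun R => if Disjoint R S then (1 : ℝ) else 0)
  simp only [wsum_disjoint_one] at h1
  have h2 : HasDerivAt (fun x : ℝ => (1 - x) ^ (A ∩ S).card)
      (-((A ∩ S).card * (1 - q) ^ ((A ∩ S).card - 1))) q := by
    have h3 : HasDerivAt (fun x : ℝ => 1 - x) (-1) q := by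
      simpa using (hasDerivAt_id q).const_sub 1
    have := h3.fun_pow (A ∩ S).card
    simpa using this
  exact h1.unique h2

end wsum

section Q

variable {G : Type*} [AddCommGroup G] [DecidableEq G]

/-- One step of the dual process: keep every element with probability `q`, then add `V`. -/
noncomputable def Q (q : ℝ) (V : Finset G) (f : Finset G → ℝ) : Finset G → ℝ :=
  fun A => wsum q A (fun R => f (R + V))

/-- Indicator of disjointness from `Z`. -/
noncomputable def ind (Z : Finset G) (A : Finset G) : ℝ := if Disjoint A Z then 1 else 0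

theorem Q_mono {q : ℝ} (h0 : 0 ≤ q) (h1 : q ≤ 1) (V : Finset G) {f g : Finset G → ℝ}
    (h : ∀ A, f A ≤ g A) (A : Finset G) : Q q V f A ≤ Q q V g A :=
  wsum_mono h0 h1 A (fun R _ => h _)

theorem Qit_mono {q : ℝ} (h0 : 0 ≤ q) (h1 : q ≤ 1) (V : Finset G) (t : ℕ) :
    ∀ {f g : Finset G → ℝ}, (∀ A, f A ≤ g A) → ∀ A : Finset G,
      (Q q V)^[t] f A ≤ (Q q V)^[t] g A := by
  induction t with
  | zero => intro f g h A; exact h A
  | succ t ih =>
    intro f g h A
    rw [Function.iterate_succ_apply, Function.iterate_succ_apply]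
    exact ih (fun B => Q_mono h0 h1 V h B) A

theorem Q_sum (q : ℝ) (V : Finset G) {ι : Type*} (s : Finset ι) (c : ι → ℝ)
    (h : ι → Finset G → ℝ) :
    Q q V (fun A => ∑ i ∈ s, c i * h i A) = fun A => ∑ i ∈ s, c i * Q q V (h i) A := by
  funext A
  unfold Q wsum
  simp only [Finset.mul_sum]
  rw [Finset.sum_comm]
  apply Finset.sum_congr rfl
  intro i _
  apply Finset.sum_congr rfl
  intro R _
  ring

theorem Qit_sum (q : ℝ) (V : Finset G) {ι : Type*} (s : Finset ι) (c : ι → ℝ) (t : ℕ) :
    ∀ (h : ι → Finset G → ℝ),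
    (Q q V)^[t] (fun A => ∑ i ∈ s, c i * h i A) = fun A => ∑ i ∈ s, c i * (Q q V)^[t] (h i) A := by
  induction t with
  | zero => intro h; rfl
  | succ t ih =>
    intro h
    rw [Function.iterate_succ_apply, Q_sum, ih]
    rfl

theorem Qit_wsum (q : ℝ) (V : Finset G) (t : ℕ) (S : Finset G)
    (h : Finset G → Finset G → ℝ) (B : Finset G) :
    (Q q V)^[t] (fun A => wsum q S (fun Z => h Z A)) B =
      wsum q S (fun Z => (Q q V)^[t] (h Z) B) := by
  unfold wsum
  rw [Qit_sum]

theorem Qit_dwsum (q : ℝ) (V : Finset G) (t : ℕ) (S : Finset G)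
    (h : Finset G → Finset G → ℝ) (B : Finset G) :
    (Q q V)^[t] (fun A => dwsum q S (fun Z => h Z A)) B =
      dwsum q S (fun Z => (Q q V)^[t] (h Z) B) := by
  unfold dwsum
  rw [Qit_sum]

theorem Qit_const_mul (q : ℝ) (V : Finset G) (t : ℕ) (c : ℝ)
    (h : Finset G → ℝ) (B : Finset G) :
    (Q q V)^[t] (fun A => c * h A) B = c * (Q q V)^[t] h B := by
  have := congrFun (Qit_sum q V ({()} : Finset Unit) (fun _ => c) t (fun _ => h)) B
  simpa using this

theorem Qit_add (q : ℝ) (V : Finset G) (t : ℕ)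
    (h k : Finset G → ℝ) (B : Finset G) :
    (Q q V)^[t] (fun A => h A + k A) B = (Q q V)^[t] h B + (Q q V)^[t] k B := by
  have := congrFun (Qit_sum q V (Finset.univ : Finset Bool) (fun _ => 1) t
    (fun b => if b then h else k)) B
  simpa using this

theorem Qit_const (q : ℝ) (V : Finset G) (t : ℕ) (c : ℝ) (B : Finset G) :
    (Q q V)^[t] (fun _ => c) B = c := by
  have h1 : Q q V (fun _ => c) = fun _ => c := by
    funext A; unfold Q; exact wsum_const q A c
  rw [Function.iterate_fixed h1]

theorem Qit_congr (q : ℝ) (V : Finset G) (t : ℕ) {f g : Finset G → ℝ} (h : ∀ A, f A = g A)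
    (B : Finset G) : (Q q V)^[t] f B = (Q q V)^[t] g B := by
  rw [funext h]

/-- The sites whose out-neighbourhood meets `Z`. -/
theorem disjoint_add_iff (R V Z : Finset G) : Disjoint (R + V) Z ↔ Disjoint R (Z - V) := by
  rw [Finset.disjoint_left, Finset.disjoint_left]
  constructor
  · intro h x hx hx'
    obtain ⟨z, hz, w, hw, rfl⟩ := Finset.mem_sub.1 hx'
    refine h (a := z) ?_ hz
    exact Finset.mem_add.2 ⟨z - w, hx, w, hw, by abel⟩
  · intro h x hx hx'
    obtain ⟨r, hr, w, hw, rfl⟩ := Finset.mem_add.1 hx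
    exact h hr (Finset.mem_sub.2 ⟨r + w, hx', w, hw, by abel⟩)

theorem Q_ind_mul (q : ℝ) (V Z : Finset G) (g : Finset G → ℝ) (A : Finset G) :
    Q q V (fun B => ind Z B * g B) A =
      wsum q (Z - V) (fun Z' => ind Z' A * wsum q (A \ (Z - V)) (fun R => g (R + V))) := by
  have h1 : Q q V (fun B => ind Z B * g B) A =
      wsum q A (fun R => if Disjoint R (Z - V) then g (R + V) else 0) := by
    unfold Q
    apply wsum_congr
    intro R _
    unfold ind
    simp only [disjoint_add_iff]
    split_ifs <;> simp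
  rw [h1, wsum_disjoint q A (Z - V) (fun R => g (R + V))]
  have h2 : wsum q (Z - V) (fun Z' => ind Z' A * wsum q (A \ (Z - V)) (fun R => g (R + V))) =
      wsum q (A \ (Z - V)) (fun R => g (R + V)) *
      wsum q (Z - V) (fun Z' => if Disjoint Z' A then (1 : ℝ) else 0) := by
    rw [← wsum_const_mul]
    apply wsum_congr
    intro R _
    unfold ind
    simp only [disjoint_comm (a := A)]
    ring
  rw [h2, wsum_disjoint_one, Finset.inter_comm (Z - V) A]
  ring

theorem Q_ind (q : ℝ) (V Z : Finset G) (A : Finset G) :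
    Q q V (ind Z) A = wsum q (Z - V) (fun Z' => ind Z' A) := by
  have := Q_ind_mul q V Z (fun _ => 1) A
  simp only [mul_one, wsum_const] at this
  exact this

/-- The probability that the origin is not connected to the set `Z` at level `t`, computed from
the top. -/
noncomputable def K (V : Finset G) (q : ℝ) : ℕ → Finset G → ℝ
  | 0, Z => ind Z {0}
  | t + 1, Z => wsum q (Z - V) (K V q t)

theorem K_eq (V : Finset G) (q : ℝ) (t : ℕ) : ∀ Z : Finset G,
    K V q t Z = (Q q V)^[t] (ind Z) {0} := by
  induction t with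
  | zero => intro Z; rfl
  | succ t ih =>
    intro Z
    rw [Function.iterate_succ_apply]
    have h1 : Q q V (ind Z) = fun A => wsum q (Z - V) (fun Z' => ind Z' A) := by
      funext A; exact Q_ind q V Z A
    rw [h1, Qit_wsum]
    show wsum q (Z - V) (K V q t) = _
    apply wsum_congr
    intro R _
    exact ih R

/-- The derivative of `K` with respect to `q`. -/
noncomputable def dK (V : Finset G) (q : ℝ) : ℕ → Finset G → ℝ
  | 0, _ => 0
  | t + 1, Z => wsum q (Z - V) (dK V q t) + dwsum q (Z - V) (K V q t)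

theorem hasDerivAt_K (V : Finset G) (q : ℝ) (t : ℕ) : ∀ Z : Finset G,
    HasDerivAt (fun x => K V x t Z) (dK V q t Z) q := by
  induction t with
  | zero => intro Z; exact hasDerivAt_const q _
  | succ t ih =>
    intro Z
    exact hasDerivAt_wsum q (Z - V) (fun x => K V x t) (dK V q t) ih

/-- The expected number of exits. -/
noncomputable def exitF (q : ℝ) (V : Finset G) : List (Finset G) → Finset G → ℝ
  | [], A => A.card
  | S :: l, A => (A ∩ S).card + wsum q (A \ S) (fun R => exitF q V l (R + V))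

theorem step_identity (V : Finset G) (q : ℝ) (t : ℕ) (Z : Finset G) :
    -(1 - q) * dK V q (t + 1) Z =
      wsum q (Z - V) (fun Z' => -(1 - q) * dK V q t Z' +
        (Q q V)^[t] (fun A => ind Z' A * (A ∩ (Z - V)).card) {0}) := by
  set S := Z - V with hS
  have h1 : dK V q (t + 1) Z = wsum q S (dK V q t) + dwsum q S (K V q t) := rfl
  have h2 : dwsum q S (K V q t) =
      (Q q V)^[t] (fun A => dwsum q S (fun Z' => ind Z' A)) {0} := by
    rw [Qit_dwsum]
    congr 1
    funext Z'
    exact K_eq V q t Z'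
  have h3 : -(1 - q) * dwsum q S (K V q t) =
      wsum q S (fun Z' => (Q q V)^[t] (fun A => ind Z' A * (A ∩ S).card) {0}) := by
    rw [h2, ← Qit_const_mul, ← Qit_wsum]
    apply Qit_congr
    intro A
    have e1 : dwsum q S (fun Z' => ind Z' A) =
        - ((S ∩ A).card * (1 - q) ^ ((S ∩ A).card - 1)) := by
      rw [← dwsum_disjoint_one]
      congr 1
      funext Z'
      unfold ind
      simp only [disjoint_comm (a := A)]
    have e2 : wsum q S (fun Z' => ind Z' A * (A ∩ S).card) =
        (A ∩ S).card * (1 - q) ^ (S ∩ A).card := by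
      rw [← wsum_disjoint_one q S A, ← wsum_const_mul]
      apply wsum_congr
      intro R _
      unfold ind
      simp only [disjoint_comm (a := A)]
      ring
    rw [e1, e2, Finset.inter_comm A S]
    rcases Nat.eq_zero_or_pos (S ∩ A).card with h | h
    · rw [h]; simp
    · obtain ⟨m, hm⟩ := Nat.exists_eq_succ_of_ne_zero h.ne'
      rw [hm]
      simp only [Nat.succ_eq_add_one, Nat.add_sub_cancel]
      ring
  rw [h1, mul_add, h3, wsum_add, wsum_const_mul]

/-- The differential inequality at level `t`. -/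
theorem diff_ineq {q : ℝ} (h0 : 0 ≤ q) (h1 : q ≤ 1) (V : Finset G)
    (H : ∀ l : List (Finset G), 1 ≤ exitF q V l {0}) (t : ℕ) :
    ∀ (Z : Finset G) (l : List (Finset G)),
      K V q t Z ≤ -(1 - q) * dK V q t Z + (Q q V)^[t] (fun A => ind Z A * exitF q V l A) {0} := by
  induction t with
  | zero =>
    intro Z l
    show ind Z {0} ≤ -(1 - q) * 0 + ind Z {0} * exitF q V l {0}
    have h2 : 0 ≤ ind Z ({0} : Finset G) := by unfold ind; split_ifs <;> norm_num
    nlinarith [H l]
  | succ t ih =>
    intro Z l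
    rw [step_identity, Function.iterate_succ_apply]
    have e1 : Q q V (fun A => ind Z A * exitF q V l A) =
        fun A => wsum q (Z - V) (fun Z' => ind Z' A *
          wsum q (A \ (Z - V)) (fun R => exitF q V l (R + V))) := by
      funext A; exact Q_ind_mul q V Z _ A
    rw [e1, Qit_wsum, ← wsum_add]
    show wsum q (Z - V) (K V q t) ≤ _
    apply wsum_mono h0 h1
    intro Z' _
    refine (ih Z' ((Z - V) :: l)).trans (le_of_eq ?_)
    rw [add_assoc, ← Qit_add]
    congr 1
    apply Qit_congr
    intro A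
    show ind Z' A * ((A ∩ (Z - V)).card + wsum q (A \ (Z - V)) (fun R => exitF q V l (R + V))) = _
    ring

/-- Levels reachable from the origin. -/
def W (V : Finset G) : ℕ → Finset G
  | 0 => {0}
  | t + 1 => W V t + V

theorem window (q : ℝ) (V : Finset G) (t : ℕ) : ∀ (s : ℕ) (f g : Finset G → ℝ)
    (_ : ∀ B ⊆ W V (s + t), f B = g B) (A : Finset G), A ⊆ W V s →
      (Q q V)^[t] f A = (Q q V)^[t] g A := by
  induction t with
  | zero => intro s f g h A hA; exact h A hA
  | succ t ih =>
    intro s f g h A hA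
    rw [Function.iterate_succ_apply', Function.iterate_succ_apply']
    apply wsum_congr
    intro R hR
    apply ih (s + 1) f g (fun B hB => h B (by rw [show s + (t + 1) = s + 1 + t by omega]; exact hB))
    exact Finset.add_subset_add_right (hR.trans hA)

/-- The probability of extinction before level `t`, from the set `A`. -/
noncomputable def ext (q : ℝ) (V : Finset G) (t : ℕ) : Finset G → ℝ :=
  (Q q V)^[t] (fun A => if A = ∅ then 1 else 0)

theorem K_W (V : Finset G) (q : ℝ) (t : ℕ) : K V q t (W V t) = ext q V t {0} := by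
  rw [K_eq]
  unfold ext
  apply window q V t 0
  · intro B hB
    rw [Nat.zero_add] at hB
    unfold ind
    by_cases h : B = ∅
    · subst h; simp
    · rw [if_neg h, if_neg]
      intro hd
      obtain ⟨x, hx⟩ := Finset.nonempty_iff_ne_empty.2 h
      exact Finset.disjoint_left.1 hd hx (hB hx)
  · exact Finset.Subset.refl _

theorem W_subset (V : Finset G) (hV : V.Nonempty) (t : ℕ) : W V t ⊆ W V (t + 1) - V := by
  intro x hx
  obtain ⟨w, hw⟩ := hV
  exact Finset.mem_sub.2 ⟨x + w, Finset.add_mem_add hx hw, w, hw, by abel⟩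

theorem diff_ineq_top {q : ℝ} (h0 : 0 ≤ q) (h1 : q ≤ 1) (V : Finset G) (hV : V.Nonempty)
    (H : ∀ l : List (Finset G), 1 ≤ exitF q V l {0}) (t : ℕ) :
    K V q (t + 1) (W V (t + 1)) ≤ -(1 - q) * dK V q (t + 1) (W V (t + 1)) := by
  rw [step_identity]
  show wsum q (W V (t + 1) - V) (K V q t) ≤ _
  apply wsum_mono h0 h1
  intro Z' _
  refine (diff_ineq h0 h1 V H t Z' []).trans (le_of_eq ?_)
  congr 1
  apply window q V t 0
  · intro B hB
    rw [Nat.zero_add] at hB
    have : B ∩ (W V (t + 1) - V) = B :=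
      Finset.inter_eq_left.2 (hB.trans (W_subset V hV t))
    rw [this]
    rfl
  · exact Finset.Subset.refl _

theorem ext_le_one {q : ℝ} (h0 : 0 ≤ q) (h1 : q ≤ 1) (V : Finset G) (t : ℕ) (A : Finset G) :
    ext q V t A ≤ 1 := by
  have := Qit_mono h0 h1 V t (f := fun A => if A = ∅ then 1 else 0) (g := fun _ => 1)
    (fun A => by split_ifs <;> norm_num) A
  rwa [Qit_const] at this

theorem ext_nonneg {q : ℝ} (h0 : 0 ≤ q) (h1 : q ≤ 1) (V : Finset G) (t : ℕ) (A : Finset G) :
    0 ≤ ext q V t A := by
  have := Qit_mono h0 h1 V t (f := fun _ => 0) (g := fun A => if A = ∅ then 1 else 0)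
    (fun A => by split_ifs <;> norm_num) A
  rwa [Qit_const] at this

/-- The integrated differential inequality. -/
theorem integrated {q₀ q₁ : ℝ} (h0 : 0 ≤ q₀) (h01 : q₀ < q₁) (h1 : q₁ < 1) (V : Finset G)
    (hV : V.Nonempty)
    (H : ∀ q ∈ Set.Icc q₀ q₁, ∀ l : List (Finset G), 1 ≤ exitF q V l {0}) (t : ℕ) :
    ext q₁ V (t + 1) {0} ≤ (1 - q₁) / (1 - q₀) := by
  set f : ℝ → ℝ := fun x => K V x (t + 1) (W V (t + 1)) with hf
  set f' : ℝ → ℝ := fun x => dK V x (t + 1) (W V (t + 1)) with hf'
  have hder : ∀ x, HasDerivAt f (f' x) x := fun x => hasDerivAt_K V x (t + 1) _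
  have hlin : ∀ x : ℝ, HasDerivAt (fun x : ℝ => 1 - x) (-1) x := fun x => by
    simpa using (hasDerivAt_id x).const_sub 1
  have hne : ∀ x ∈ Set.Icc q₀ q₁, (1 - x : ℝ) ≠ 0 := by
    intro x hx; have := hx.2; intro h; linarith
  have hg : ∀ x ∈ Set.Icc q₀ q₁, HasDerivAt (fun x => f x / (1 - x))
      ((f' x * (1 - x) - f x * (-1)) / (1 - x) ^ 2) x := by
    intro x hx
    exact (hder x).fun_div (hlin x) (hne x hx)
  have hanti : AntitoneOn (fun x => f x / (1 - x)) (Set.Icc q₀ q₁) := by
    apply antitoneOn_of_deriv_nonpos (convex_Icc q₀ q₁)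
    · intro x hx
      exact (hg x hx).continuousAt.continuousWithinAt
    · intro x hx
      rw [interior_Icc] at hx
      exact (hg x (Set.Ioo_subset_Icc_self hx)).differentiableAt.differentiableWithinAt
    · intro x hx
      rw [interior_Icc] at hx
      have hx' := Set.Ioo_subset_Icc_self hx
      rw [(hg x hx').deriv]
      apply div_nonpos_of_nonpos_of_nonneg
      · have := diff_ineq_top (by linarith [hx'.1]) (by linarith [hx'.2]) V hV (H x hx') t
        simp only [hf, hf']
        linarith
      · positivity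
  have hfin := hanti (Set.left_mem_Icc.2 h01.le) (Set.right_mem_Icc.2 h01.le) h01.le
  simp only at hfin
  have e1 : f q₁ = ext q₁ V (t + 1) {0} := K_W V q₁ (t + 1)
  have e0 : f q₀ = ext q₀ V (t + 1) {0} := K_W V q₀ (t + 1)
  rw [e1, e0] at hfin
  have h2 : ext q₀ V (t + 1) {0} ≤ 1 := ext_le_one h0 (by linarith) V _ _
  have h3 : (0 : ℝ) < 1 - q₁ := by linarith
  have h4 : (0 : ℝ) < 1 - q₀ := by linarith
  rw [div_le_div_iff₀ h3 h4] at hfin
  rw [le_div_iff₀ h4]
  nlinarith

/-- Monotone under inclusion is preserved by `Q`. -/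
theorem Q_monotone {q : ℝ} (h0 : 0 ≤ q) (h1 : q ≤ 1) (V : Finset G) {f : Finset G → ℝ}
    (hf : Monotone f) : Monotone (Q q V f) := by
  intro A B hAB
  unfold Q
  rw [← Finset.union_sdiff_of_subset hAB, wsum_union q Finset.disjoint_sdiff]
  apply wsum_mono h0 h1
  intro R _
  rw [← wsum_const q (B \ A) (f (R + V))]
  apply wsum_mono h0 h1
  intro S _
  exact hf (Finset.add_subset_add_right Finset.subset_union_left)

theorem Q_antitone {q : ℝ} (h0 : 0 ≤ q) (h1 : q ≤ 1) (V : Finset G) {f : Finset G → ℝ}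
    (hf : Antitone f) : Antitone (Q q V f) := by
  intro A B hAB
  unfold Q
  rw [← Finset.union_sdiff_of_subset hAB, wsum_union q Finset.disjoint_sdiff]
  apply wsum_mono h0 h1
  intro R _
  rw [← wsum_const q (B \ A) (f (R + V))]
  apply wsum_mono h0 h1
  intro S _
  exact hf (Finset.add_subset_add_right Finset.subset_union_left)

theorem Q_subadd {q : ℝ} (h0 : 0 ≤ q) (h1 : q ≤ 1) (V : Finset G) {f : Finset G → ℝ}
    (hm : Monotone f) (hs : ∀ A B, f (A ∪ B) ≤ f A + f B) (A B : Finset G) :
    Q q V f (A ∪ B) ≤ Q q V f A + Q q V f B := by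
  have h2 : Q q V f (A ∪ B) ≤ Q q V f A + Q q V f (B \ A) := by
    unfold Q
    rw [← Finset.union_sdiff_self_eq_union, wsum_union q Finset.disjoint_sdiff]
    have h3 : wsum q A (fun R => f (R + V)) + wsum q (B \ A) (fun R => f (R + V)) =
        wsum q A (fun R => wsum q (B \ A) (fun S => f (R + V) + f (S + V))) := by
      have : ∀ R : Finset G, wsum q (B \ A) (fun S => f (R + V) + f (S + V)) =
          f (R + V) + wsum q (B \ A) (fun S => f (S + V)) := by
        intro R
        rw [wsum_add, wsum_const]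
      simp only [this]
      rw [wsum_add, wsum_const]
    rw [h3]
    apply wsum_mono h0 h1
    intro R _
    apply wsum_mono h0 h1
    intro S _
    rw [Finset.union_add]
    exact hs _ _
  have h4 := Q_monotone h0 h1 V hm (Finset.sdiff_subset : B \ A ⊆ B)
  linarith

/-- The expected number of sites at level `k` reached from `A`. -/
noncomputable def cnt (q : ℝ) (V : Finset G) (k : ℕ) : Finset G → ℝ :=
  (Q q V)^[k] (fun A => (A.card : ℝ))

theorem cnt_succ (q : ℝ) (V : Finset G) (k : ℕ) : cnt q V (k + 1) = Q q V (cnt q V k) := by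
  unfold cnt; rw [Function.iterate_succ_apply']

theorem cnt_props {q : ℝ} (h0 : 0 ≤ q) (h1 : q ≤ 1) (V : Finset G) (k : ℕ) :
    Monotone (cnt q V k) ∧ ∀ A B, cnt q V k (A ∪ B) ≤ cnt q V k A + cnt q V k B := by
  induction k with
  | zero =>
    constructor
    · intro A B hAB
      show (A.card : ℝ) ≤ B.card
      exact_mod_cast Finset.card_le_card hAB
    · intro A B
      show ((A ∪ B).card : ℝ) ≤ A.card + B.card
      exact_mod_cast Finset.card_union_le A B
  | succ k ih =>
    rw [cnt_succ]
    exact ⟨Q_monotone h0 h1 V ih.1, Q_subadd h0 h1 V ih.1 ih.2⟩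

theorem cnt_nonneg {q : ℝ} (h0 : 0 ≤ q) (h1 : q ≤ 1) (V : Finset G) (k : ℕ) (A : Finset G) :
    0 ≤ cnt q V k A := by
  have := Qit_mono h0 h1 V k (f := fun _ => 0) (g := fun A => (A.card : ℝ))
    (fun A => by positivity) A
  rwa [Qit_const] at this

theorem Q_translate (q : ℝ) (V : Finset G) {f : Finset G → ℝ}
    (hf : ∀ (x : G) (A : Finset G), f (A.image (fun a => x + a)) = f A) (x : G) (A : Finset G) :
    Q q V f (A.image (fun a => x + a)) = Q q V f A := by
  unfold Q
  rw [wsum_image q A (add_right_injective x)]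
  apply wsum_congr
  intro R _
  rw [← hf x (R + V)]
  congr 1
  ext y
  simp only [Finset.mem_add, Finset.mem_image]
  constructor
  · rintro ⟨a, ⟨r, hr, rfl⟩, w, hw, rfl⟩
    exact ⟨r + w, ⟨r, hr, w, hw, rfl⟩, by abel⟩
  · rintro ⟨b, ⟨r, hr, w, hw, rfl⟩, rfl⟩
    exact ⟨x + r, ⟨r, hr, rfl⟩, w, hw, by abel⟩

theorem Qit_translate (q : ℝ) (V : Finset G) (t : ℕ) {f : Finset G → ℝ}
    (hf : ∀ (x : G) (A : Finset G), f (A.image (fun a => x + a)) = f A) :
    ∀ (x : G) (A : Finset G), (Q q V)^[t] f (A.image (fun a => x + a)) = (Q q V)^[t] f A := by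
  induction t with
  | zero => exact hf
  | succ t ih =>
    intro x A
    rw [Function.iterate_succ_apply']
    exact Q_translate q V ih x A

theorem cnt_singleton (q : ℝ) (V : Finset G) (k : ℕ) (x : G) :
    cnt q V k {x} = cnt q V k {0} := by
  have := Qit_translate q V k (f := fun A => (A.card : ℝ))
    (fun x A => by rw [Finset.card_image_of_injective A (add_right_injective x)]) x {0}
  rw [Finset.image_singleton, add_zero] at this
  exact this

theorem cnt_le_card {q : ℝ} (h0 : 0 ≤ q) (h1 : q ≤ 1) (V : Finset G) (k : ℕ) (A : Finset G) :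
    cnt q V k A ≤ A.card * cnt q V k {0} := by
  induction A using Finset.induction_on with
  | empty =>
    have h2 : cnt q V k (∅ : Finset G) = 0 := by
      induction k with
      | zero => simp [cnt]
      | succ k ih =>
        rw [cnt_succ]; unfold Q; rw [wsum_empty, Finset.empty_add, ih]
    rw [h2]; simp
  | insert a A ha ih =>
    have h2 := (cnt_props h0 h1 V k).2 {a} A
    rw [← Finset.insert_eq] at h2
    rw [Finset.card_insert_of_notMem ha]
    rw [cnt_singleton] at h2
    push_cast
    linarith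

theorem exitF_nonneg {q : ℝ} (h0 : 0 ≤ q) (h1 : q ≤ 1) (V : Finset G) (l : List (Finset G)) :
    ∀ A, 0 ≤ exitF q V l A := by
  induction l with
  | nil => intro A; show (0 : ℝ) ≤ A.card; positivity
  | cons S l ih =>
    intro A
    show (0 : ℝ) ≤ (A ∩ S).card + wsum q (A \ S) (fun R => exitF q V l (R + V))
    have := wsum_nonneg h0 h1 (A \ S) (g := fun R => exitF q V l (R + V)) (fun R _ => ih _)
    positivity

theorem cnt_le_exitF {q : ℝ} (h0 : 0 ≤ q) (h1 : q ≤ 1) (V : Finset G) (M : ℝ)
    (l : List (Finset G)) : ∀ (k : ℕ), l.length ≤ k →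
      (∀ j, k - l.length ≤ j → j ≤ k → cnt q V j {0} ≤ M) → ∀ A : Finset G,
      cnt q V k A ≤ M * exitF q V l A := by
  induction l with
  | nil =>
    intro k _ h A
    have h2 := h k (by simp) le_rfl
    have h3 := cnt_le_card h0 h1 V k A
    show cnt q V k A ≤ M * (A.card : ℝ)
    have : (A.card : ℝ) * cnt q V k {0} ≤ A.card * M :=
      mul_le_mul_of_nonneg_left h2 (by positivity)
    linarith
  | cons S l ih =>
    intro k hk h A
    rw [List.length_cons] at hk
    obtain ⟨k, rfl⟩ : ∃ k', k = k' + 1 := ⟨k - 1, by omega⟩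
    have hA : A = (A ∩ S) ∪ (A \ S) := by
      ext x; simp only [Finset.mem_union, Finset.mem_inter, Finset.mem_sdiff]; tauto
    have h2 := (cnt_props h0 h1 V (k + 1)).2 (A ∩ S) (A \ S)
    rw [← hA] at h2
    have h3 := cnt_le_card h0 h1 V (k + 1) (A ∩ S)
    have h4 : cnt q V (k + 1) {0} ≤ M := h (k + 1) (by omega) le_rfl
    have h5 : cnt q V (k + 1) (A \ S) ≤ M * wsum q (A \ S) (fun R => exitF q V l (R + V)) := by
      rw [cnt_succ, ← wsum_const_mul]
      apply wsum_mono h0 h1
      intro R _
      apply ih k (by omega)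
      intro j hj hj'
      apply h j _ (by omega)
      rw [List.length_cons]
      omega
    show cnt q V (k + 1) A ≤
      M * ((A ∩ S).card + wsum q (A \ S) (fun R => exitF q V l (R + V)))
    have h6 : ((A ∩ S).card : ℝ) * cnt q V (k + 1) {0} ≤ (A ∩ S).card * M :=
      mul_le_mul_of_nonneg_left h4 (Nat.cast_nonneg _)
    rw [mul_add]
    linarith

/-- Exponential decay once some exit functional is less than one. -/
theorem cnt_tendsto_zero {q : ℝ} (h0 : 0 ≤ q) (h1 : q ≤ 1) (V : Finset G)
    (l : List (Finset G)) (hl : exitF q V l {0} < 1) :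
    Tendsto (fun k => cnt q V k ({0} : Finset G)) atTop (𝓝 0) := by
  set a : ℕ → ℝ := fun k => cnt q V k ({0} : Finset G) with ha
  set φ := exitF q V l ({0} : Finset G) with hφ
  have hφ0 : 0 ≤ φ := exitF_nonneg h0 h1 V l _
  have ha0 : ∀ k, 0 ≤ a k := fun k => cnt_nonneg h0 h1 V k _
  set L := l.length with hL
  set C : ℝ := ∑ j ∈ Finset.range (L + 1), a j with hC
  have hCj : ∀ j ≤ L, a j ≤ C := by
    intro j hj
    exact Finset.single_le_sum (f := a) (fun i _ => ha0 i) (Finset.mem_range.2 (by omega))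
  have hC0 : 0 ≤ C := Finset.sum_nonneg (fun i _ => ha0 i)
  have hrec : ∀ k, L ≤ k → ∀ M, (∀ j, k - L ≤ j → j < k → a j ≤ M) → 0 ≤ M →
      a k ≤ φ * M := by
    intro k hk M hM hM0
    have h2 := cnt_le_exitF h0 h1 V (max M (a k)) l k hk (by
      intro j hj hj'
      rcases Nat.lt_or_ge j k with h | h
      · exact (hM j hj h).trans (le_max_left _ _)
      · have : j = k := by omega
        subst this
        exact le_max_right _ _) {0}
    rcases le_total M (a k) with h | h
    · rw [max_eq_right h] at h2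
      have h3 : a k ≤ a k * φ := h2
      have h4 : a k ≤ 0 := by
        by_contra hcon
        push Not at hcon
        nlinarith
      exact h4.trans (mul_nonneg hφ0 hM0)
    · rw [max_eq_left h] at h2
      have h3 : a k ≤ M * φ := h2
      linarith
  have hbase : ∀ k, a k ≤ C := by
    intro k
    induction k using Nat.strong_induction_on with
    | _ k ih =>
      rcases Nat.lt_or_ge k L with h | h
      · exact hCj k h.le
      · have h2 := hrec k h C (fun j _ hj => ih j hj) hC0
        nlinarith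
  have hpow : ∀ m k, m * L ≤ k → a k ≤ φ ^ m * C := by
    intro m
    induction m with
    | zero => intro k _; simpa using hbase k
    | succ m ih =>
      intro k hk
      have h2 := hrec k (by nlinarith) (φ ^ m * C) (fun j hj _ => ih j (by
        have : (m + 1) * L = m * L + L := by ring
        omega)) (by positivity)
      calc a k ≤ φ * (φ ^ m * C) := h2
        _ = φ ^ (m + 1) * C := by ring
  have hlim : Tendsto (fun m : ℕ => φ ^ m * C) atTop (𝓝 0) := by
    have := (tendsto_pow_atTop_nhds_zero_of_lt_one hφ0 hl).mul_const C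
    simpa using this
  rw [Metric.tendsto_atTop] at hlim ⊢
  intro ε hε
  obtain ⟨m, hm⟩ := hlim ε hε
  refine ⟨m * L, fun k hk => ?_⟩
  have h2 := hm m le_rfl
  rw [Real.dist_eq, sub_zero, abs_of_nonneg (by positivity)] at h2
  rw [Real.dist_eq, sub_zero, abs_of_nonneg (ha0 k)]
  exact (hpow m k hk).trans_lt h2

/-- Sharpness: if extinction is certain at `q₁` then at some `q` in `[q₀, q₁]` the expected number
of reached sites tends to zero. -/
theorem sharp {q₀ q₁ : ℝ} (h0 : 0 ≤ q₀) (h01 : q₀ < q₁) (h1 : q₁ < 1) (V : Finset G)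
    (hV : V.Nonempty) (hext : Tendsto (fun t => ext q₁ V t ({0} : Finset G)) atTop (𝓝 1)) :
    ∃ q ∈ Set.Icc q₀ q₁, Tendsto (fun k => cnt q V k ({0} : Finset G)) atTop (𝓝 0) := by
  by_contra hcon
  push Not at hcon
  have H : ∀ q ∈ Set.Icc q₀ q₁, ∀ l : List (Finset G), 1 ≤ exitF q V l {0} := by
    intro q hq l
    by_contra hl
    push Not at hl
    exact hcon q hq (cnt_tendsto_zero (by linarith [hq.1]) (by linarith [hq.2]) V l hl)
  have h2 : ∀ t, ext q₁ V (t + 1) {0} ≤ (1 - q₁) / (1 - q₀) := fun t =>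
    integrated h0 h01 h1 V hV H t
  have h3 : (1 : ℝ) ≤ (1 - q₁) / (1 - q₀) :=
    le_of_tendsto ((tendsto_add_atTop_iff_nat 1).2 hext) (Eventually.of_forall h2)
  rw [le_div_iff₀ (by linarith)] at h3
  linarith

/-- Supermultiplicativity of extinction probabilities. -/
theorem ext_supermul {q : ℝ} (h0 : 0 ≤ q) (h1 : q ≤ 1) (V : Finset G) (t : ℕ) :
    Antitone (ext q V t) ∧ ∀ A B, ext q V t A * ext q V t B ≤ ext q V t (A ∪ B) := by
  induction t with
  | zero =>
    constructor
    · intro A B hAB
      show (if B = ∅ then (1 : ℝ) else 0) ≤ if A = ∅ then 1 else 0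
      by_cases hB : B = ∅
      · subst hB
        have : A = ∅ := Finset.subset_empty.1 hAB
        simp [this]
      · rw [if_neg hB]; split_ifs <;> norm_num
    · intro A B
      show (if A = ∅ then (1 : ℝ) else 0) * (if B = ∅ then 1 else 0) ≤ if A ∪ B = ∅ then 1 else 0
      by_cases hA : A = ∅
      · subst hA; simp
      · simp only [if_neg hA, zero_mul]
        split_ifs <;> norm_num
  | succ t ih =>
    have hrw : ext q V (t + 1) = Q q V (ext q V t) := by
      unfold ext; rw [Function.iterate_succ_apply']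
    rw [hrw]
    refine ⟨Q_antitone h0 h1 V ih.1, ?_⟩
    intro A B
    unfold Q
    rw [← wsum_inter q (Finset.subset_union_left : A ⊆ A ∪ B) (fun R => ext q V t (R + V)),
      ← wsum_inter q (Finset.subset_union_right : B ⊆ A ∪ B) (fun R => ext q V t (R + V))]
    refine (harris h0 h1 (A ∪ B) _ _ ?_ ?_).trans ?_
    · intro R S hRS
      exact ih.1 (Finset.add_subset_add_right (Finset.inter_subset_inter_right hRS))
    · intro R S hRS
      exact ih.1 (Finset.add_subset_add_right (Finset.inter_subset_inter_right hRS))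
    · apply wsum_mono h0 h1
      intro R hR
      refine (ih.2 _ _).trans (le_of_eq ?_)
      congr 1
      rw [← Finset.union_add, ← Finset.inter_union_distrib_left, Finset.inter_eq_left.2 hR]

theorem ext_translate (q : ℝ) (V : Finset G) (t : ℕ) (x : G) :
    ext q V t {x} = ext q V t {0} := by
  have := Qit_translate q V t (f := fun A => if A = ∅ then (1 : ℝ) else 0)
    (fun x A => by simp only [Finset.image_eq_empty]) x {0}
  rw [Finset.image_singleton, add_zero] at this
  exact this

theorem ext_ge_pow {q : ℝ} (h0 : 0 ≤ q) (h1 : q ≤ 1) (V : Finset G) (t : ℕ) (A : Finset G) :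
    (ext q V t {0}) ^ A.card ≤ ext q V t A := by
  induction A using Finset.induction_on with
  | empty =>
    have h2 : ext q V t (∅ : Finset G) = 1 := by
      induction t with
      | zero => simp [ext]
      | succ t ih =>
        have hrw : ext q V (t + 1) = Q q V (ext q V t) := by
          unfold ext; rw [Function.iterate_succ_apply']
        rw [hrw]; unfold Q; rw [wsum_empty, Finset.empty_add, ih]
    rw [h2]; simp
  | insert a A ha ih =>
    rw [Finset.card_insert_of_notMem ha, pow_succ, Finset.insert_eq]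
    refine le_trans ?_ ((ext_supermul h0 h1 V t).2 {a} A)
    rw [ext_translate q V t a, mul_comm]
    exact mul_le_mul_of_nonneg_left ih (ext_nonneg h0 h1 V t _)

theorem ext_mono {q : ℝ} (h0 : 0 ≤ q) (h1 : q ≤ 1) (V : Finset G) (A : Finset G) :
    Monotone (fun t => ext q V t A) := by
  apply monotone_nat_of_le_succ
  intro t
  unfold ext
  rw [Function.iterate_succ_apply]
  apply Qit_mono h0 h1
  intro B
  by_cases hB : B = ∅
  · subst hB
    unfold Q; rw [wsum_empty]; simp
  · rw [if_neg hB]
    apply wsum_nonneg h0 h1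
    intro R _
    show (0 : ℝ) ≤ if R + V = ∅ then 1 else 0
    split_ifs <;> norm_num

/-- The chaos densities. -/
noncomputable def Fd (q : ℝ) (V : Finset G) (T : ℕ) (p : ℝ) : ℝ :=
  (Q q V)^[T] (fun A => p ^ A.card) {0}

theorem Fd_mem {q : ℝ} (h0 : 0 ≤ q) (h1 : q ≤ 1) (V : Finset G) (T : ℕ) {p : ℝ}
    (hp : p ∈ Set.Icc (0 : ℝ) 1) : Fd q V T p ∈ Set.Icc (0 : ℝ) 1 := by
  constructor
  · have := Qit_mono h0 h1 V T (f := fun _ => 0) (g := fun A => p ^ A.card)
      (fun A => pow_nonneg hp.1 _) {0}
    rwa [Qit_const] at this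
  · have := Qit_mono h0 h1 V T (f := fun A => p ^ A.card) (g := fun _ => 1)
      (fun A => pow_le_one₀ hp.1 hp.2) {0}
    rwa [Qit_const] at this

/-- The chaos densities are dominated by the extinction probabilities. -/
theorem Fd_iter_le {q : ℝ} (h0 : 0 ≤ q) (h1 : q ≤ 1) (V : Finset G) (T k : ℕ) :
    (Fd q V T)^[k] 0 ∈ Set.Icc (0 : ℝ) 1 ∧ (Fd q V T)^[k] 0 ≤ ext q V (T * k) {0} := by
  induction k with
  | zero =>
    constructor
    · simp
    · show (0 : ℝ) ≤ _
      exact ext_nonneg h0 h1 V _ _
  | succ k ih =>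
    rw [Function.iterate_succ_apply']
    refine ⟨Fd_mem h0 h1 V T ih.1, ?_⟩
    have h2 : ext q V (T * (k + 1)) = (Q q V)^[T] (ext q V (T * k)) := by
      unfold ext
      rw [← Function.iterate_add_apply]
      congr 2
      ring
    rw [h2]
    apply Qit_mono h0 h1
    intro A
    exact (pow_le_pow_left₀ ih.1.1 ih.2 _).trans (ext_ge_pow h0 h1 V _ A)

theorem ext_tendsto_of_Fd {q : ℝ} (h0 : 0 ≤ q) (h1 : q ≤ 1) (V : Finset G) (T : ℕ)
    (h : Tendsto (fun k => (Fd q V T)^[k] 0) atTop (𝓝 1)) :
    Tendsto (fun t => ext q V t ({0} : Finset G)) atTop (𝓝 1) := by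
  rw [Metric.tendsto_atTop] at h ⊢
  intro ε hε
  obtain ⟨k, hk⟩ := h ε hε
  refine ⟨T * k, fun t ht => ?_⟩
  have h2 := hk k le_rfl
  rw [Real.dist_eq, abs_lt] at h2 ⊢
  have h3 := (Fd_iter_le h0 h1 V T k).2
  have h4 := ext_mono h0 h1 V {0} ht
  simp only at h4
  have h5 := ext_le_one h0 h1 V t {0}
  constructor <;> linarith

theorem Fd_tendsto_of_cnt {q : ℝ} (h0 : 0 ≤ q) (h1 : q ≤ 1) (V : Finset G) (T : ℕ)
    (h : cnt q V T {0} < 1) :
    Tendsto (fun k => (Fd q V T)^[k] 0) atTop (𝓝 1) := by
  set a := cnt q V T ({0} : Finset G) with ha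
  have ha0 : 0 ≤ a := cnt_nonneg h0 h1 V T _
  have hstep : ∀ p ∈ Set.Icc (0 : ℝ) 1, 1 - Fd q V T p ≤ a * (1 - p) := by
    intro p hp
    have h2 : 1 - Fd q V T p = (Q q V)^[T] (fun A => 1 + (-1) * p ^ A.card) {0} := by
      rw [Qit_add, Qit_const, Qit_const_mul]
      unfold Fd
      ring
    have h3 : a * (1 - p) = (Q q V)^[T] (fun A => (1 - p) * (A.card : ℝ)) {0} := by
      rw [Qit_const_mul, ha]
      unfold cnt
      ring
    rw [h2, h3]
    apply Qit_mono h0 h1
    intro A
    have h4 := one_add_mul_le_pow (a := p - 1) (by linarith [hp.1]) A.card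
    have h5 : (1 + (p - 1)) = p := by ring
    rw [h5] at h4
    linarith
  have hpow : ∀ k, 1 - (Fd q V T)^[k] 0 ≤ a ^ k := by
    intro k
    induction k with
    | zero => simp
    | succ k ih =>
      rw [Function.iterate_succ_apply', pow_succ]
      have h2 := hstep _ (Fd_iter_le h0 h1 V T k).1
      have h3 : a * (1 - (Fd q V T)^[k] 0) ≤ a * a ^ k := mul_le_mul_of_nonneg_left ih ha0
      linarith
  have hlim := tendsto_pow_atTop_nhds_zero_of_lt_one ha0 h
  have hlim2 : Tendsto (fun k : ℕ => 1 - a ^ k) atTop (𝓝 1) := by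
    simpa using hlim.const_sub 1
  refine tendsto_of_tendsto_of_tendsto_of_le_of_le hlim2 tendsto_const_nhds ?_ ?_
  · intro k
    have := hpow k
    show 1 - a ^ k ≤ _
    linarith
  · intro k
    exact (Fd_iter_le h0 h1 V T k).1.2

end Q

end Pool.Agent.Helper948.Core
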